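import Mathlib

/-!
# Antimagic labellings of bipartite edge sets: a determinant criterion

The classes are `Fin a` and `Fin b`; the edge `e : Fin m` joins `u e` and `w e` and gets the label
`x e`, `x` a permutation of `Fin m`.  If the sum `H` does not vanish, then some `x` makes the
shifted vertex sums distinct in both classes.
-/

open Finset Equiv

namespace Pool.Agent.AMP

/-- the determinant of a Vandermonde matrix as a sum over permutations -/
theorem crit_vdm {n : ℕ} (v : Fin n → ℚ) :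
    (Matrix.vandermonde v).det =
      ∑ σ : Perm (Fin n), ((Perm.sign σ : ℤ) : ℚ) * ∏ i, v i ^ ((σ i : Fin n) : ℕ) := by
  rw [← Matrix.det_transpose, Matrix.det_apply']
  rfl

/-- the determinant vanishes if two nodes agree -/
theorem crit_vdm_zero {n : ℕ} (v : Fin n → ℚ) {i j : Fin n} (h : i ≠ j) (hv : v i = v j) :
    (Matrix.vandermonde v).det = 0 := by
  by_contra h0
  exact h (Matrix.det_vandermonde_ne_zero_iff.1 h0 hv)

/-- products of powers of `2` -/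
theorem crit_prod {ι : Type*} (s : Finset ι) (f : ι → ℤ) :
    ∏ i ∈ s, (2 : ℚ) ^ f i = (2 : ℚ) ^ ∑ i ∈ s, f i := by
  classical
  induction s using Finset.induction_on with
  | empty => simp
  | insert a s ha ih => rw [prod_insert ha, sum_insert ha, ih, zpow_add₀ (by norm_num)]

/-- the Vandermonde determinant of powers of `2` -/
theorem crit_vdm_two {n : ℕ} (c : Fin n → ℤ) :
    (Matrix.vandermonde fun i => (2 : ℚ) ^ c i).det =
      ∑ σ : Perm (Fin n), ((Perm.sign σ : ℤ) : ℚ) * (2 : ℚ) ^ ∑ i, c i * ((σ i : Fin n) : ℕ) := by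
  rw [crit_vdm]
  refine sum_congr rfl fun σ _ => ?_
  rw [← crit_prod]
  congr 1
  refine prod_congr rfl fun i _ => ?_
  rw [zpow_mul, zpow_natCast]

/-- a vertex weighted sum as an edge sum -/
theorem crit_edge {m a : ℕ} (u : Fin m → Fin a) (x : Perm (Fin m)) (α : Fin a → ℤ) :
    ∑ i, (∑ e with u e = i, ((x e : ℕ) : ℤ)) * α i = ∑ e, ((x e : ℕ) : ℤ) * α (u e) := by
  simp only [sum_mul, sum_filter]
  rw [sum_comm]
  refine sum_congr rfl fun e _ => ?_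
  rw [sum_eq_single (u e)]
  · simp
  · intro i _ hi
    rw [if_neg (Ne.symm hi)]
    ring
  · intro h
    exact absurd (mem_univ _) h

/-- The determinant criterion. -/
theorem crit {m a b : ℕ} (u : Fin m → Fin a) (w : Fin m → Fin b) (q : Fin m → ℕ)
    (cA : Fin a → ℤ) (cB : Fin b → ℤ)
    (H : (∑ α : Equiv.Perm (Fin a), ∑ β : Equiv.Perm (Fin b),
      ((Equiv.Perm.sign α : ℤ) : ℚ) * ((Equiv.Perm.sign β : ℤ) : ℚ) *
      (2:ℚ) ^ (∑ i, cA i * (α i : ℕ) + ∑ j, cB j * (β j : ℕ) : ℤ) *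
      (Matrix.vandermonde
        (fun e => (2:ℚ) ^ ((α (u e) : ℕ) + (β (w e) : ℕ) + q e))).det) ≠ 0) :
    ∃ x : Equiv.Perm (Fin m),
      (∀ i j, i ≠ j → cA i + ∑ e with u e = i, ((x e : ℕ) : ℤ) ≠
        cA j + ∑ e with u e = j, ((x e : ℕ) : ℤ)) ∧
      (∀ i j, i ≠ j → cB i + ∑ e with w e = i, ((x e : ℕ) : ℤ) ≠
        cB j + ∑ e with w e = j, ((x e : ℕ) : ℤ)) := by
  by_contra hcon
  apply H
  -- the alternating sum over all labellings vanishes
  have hzero : ∀ x : Perm (Fin m),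
      (Matrix.vandermonde fun i => (2 : ℚ) ^ (cA i + ∑ e with u e = i, ((x e : ℕ) : ℤ))).det *
      (Matrix.vandermonde fun i => (2 : ℚ) ^ (cB i + ∑ e with w e = i, ((x e : ℕ) : ℤ))).det
        = 0 := by
    intro x
    by_contra hx
    refine hcon ⟨x, fun i j hij h => ?_, fun i j hij h => ?_⟩
    · refine hx ?_
      rw [crit_vdm_zero _ hij (by rw [h]), zero_mul]
    · refine hx ?_
      rw [crit_vdm_zero (fun i => (2 : ℚ) ^ (cB i + ∑ e with w e = i, ((x e : ℕ) : ℤ))) hij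
        (by simp only [h]), mul_zero]
  have hL : ∑ x : Perm (Fin m), ((Perm.sign x : ℤ) : ℚ) *
      (2 : ℚ) ^ (∑ e, ((x e : ℕ) : ℤ) * (q e : ℤ)) *
      ((Matrix.vandermonde fun i => (2 : ℚ) ^ (cA i + ∑ e with u e = i, ((x e : ℕ) : ℤ))).det *
      (Matrix.vandermonde fun i => (2 : ℚ) ^ (cB i + ∑ e with w e = i, ((x e : ℕ) : ℤ))).det)
        = 0 := sum_eq_zero fun x _ => by rw [hzero x, mul_zero]
  rw [← hL]
  simp only [crit_vdm_two]
  have hv : ∀ (α : Perm (Fin a)) (β : Perm (Fin b)),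
      (Matrix.vandermonde (fun e => (2:ℚ) ^ ((α (u e) : ℕ) + (β (w e) : ℕ) + q e))).det =
      ∑ x : Perm (Fin m), ((Perm.sign x : ℤ) : ℚ) *
        (2 : ℚ) ^ ∑ e, (((α (u e) : ℕ) + (β (w e) : ℕ) + q e : ℕ) : ℤ) *
          (((x e : Fin m) : ℕ) : ℤ) := by
    intro α β
    rw [← crit_vdm_two]
    simp only [zpow_natCast]
  simp only [hv, mul_sum, sum_mul]
  rw [show (∑ α : Perm (Fin a), ∑ β : Perm (Fin b), ∑ x : Perm (Fin m),
      ((Equiv.Perm.sign α : ℤ) : ℚ) * ((Equiv.Perm.sign β : ℤ) : ℚ) *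
      (2:ℚ) ^ (∑ i, cA i * (α i : ℕ) + ∑ j, cB j * (β j : ℕ) : ℤ) *
      (((Perm.sign x : ℤ) : ℚ) *
        (2 : ℚ) ^ ∑ e, (((α (u e) : ℕ) + (β (w e) : ℕ) + q e : ℕ) : ℤ) *
          (((x e : Fin m) : ℕ) : ℤ))) = ∑ x : Perm (Fin m), ∑ β : Perm (Fin b),
        ∑ α : Perm (Fin a),
      ((Equiv.Perm.sign α : ℤ) : ℚ) * ((Equiv.Perm.sign β : ℤ) : ℚ) *
      (2:ℚ) ^ (∑ i, cA i * (α i : ℕ) + ∑ j, cB j * (β j : ℕ) : ℤ) *
      (((Perm.sign x : ℤ) : ℚ) *
        (2 : ℚ) ^ ∑ e, (((α (u e) : ℕ) + (β (w e) : ℕ) + q e : ℕ) : ℤ) *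
          (((x e : Fin m) : ℕ) : ℤ)) from ?_]
  · refine sum_congr rfl fun x _ => sum_congr rfl fun β _ => sum_congr rfl fun α _ => ?_
    have e1 : ∑ i, (cA i + ∑ e with u e = i, ((x e : ℕ) : ℤ)) * ((α i : ℕ) : ℤ) =
        ∑ i, cA i * ((α i : ℕ) : ℤ) + ∑ e, ((x e : ℕ) : ℤ) * ((α (u e) : ℕ) : ℤ) := by
      rw [← crit_edge u x fun i => ((α i : ℕ) : ℤ), ← sum_add_distrib]
      exact sum_congr rfl fun i _ => by ring
    have e2 : ∑ i, (cB i + ∑ e with w e = i, ((x e : ℕ) : ℤ)) * ((β i : ℕ) : ℤ) =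
        ∑ i, cB i * ((β i : ℕ) : ℤ) + ∑ e, ((x e : ℕ) : ℤ) * ((β (w e) : ℕ) : ℤ) := by
      rw [← crit_edge w x fun i => ((β i : ℕ) : ℤ), ← sum_add_distrib]
      exact sum_congr rfl fun i _ => by ring
    have e3 : ∑ e, (((α (u e) : ℕ) + (β (w e) : ℕ) + q e : ℕ) : ℤ) * ((x e : ℕ) : ℤ) =
        ∑ e, ((x e : ℕ) : ℤ) * (q e : ℤ) + ∑ e, ((x e : ℕ) : ℤ) * ((α (u e) : ℕ) : ℤ) +
          ∑ e, ((x e : ℕ) : ℤ) * ((β (w e) : ℕ) : ℤ) := by
      rw [← sum_add_distrib, ← sum_add_distrib]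
      exact sum_congr rfl fun e _ => by push_cast; ring
    rw [e1, e2, e3]
    simp only [zpow_add₀ (show (2 : ℚ) ≠ 0 by norm_num)]
    ring
  · rw [sum_comm]
    refine (sum_congr rfl fun β _ => sum_comm).trans ?_
    rw [sum_comm]

end Pool.Agent.AMP
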