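import Mathlib

/-!
# Orientations with small vertex sums

For every finite simple graph with edges labelled by natural numbers at most `L` there is an
orientation such that every vertex sum (incoming labels minus outgoing labels) has absolute value
at most `L`.
-/

set_option autoImplicit false

namespace Pool.Agent.AMP

open Finset

/-- Two involutions, the first without fixed points: there is a 2-colouring which both change. -/
theorem two_inv (n : ℕ) : ∀ (D : Type) [Fintype D] [DecidableEq D], Fintype.card D ≤ n →
    ∀ (s t : D → D), (∀ d, s (s d) = d) → (∀ d, s d ≠ d) → (∀ d, t (t d) = d) →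
    ∃ f : D → Bool, (∀ d, f (s d) = !(f d)) ∧ (∀ d, t d ≠ d → f (t d) = !(f d)) := by
  induction n with
  | zero =>
    intro D _ _ hc s t _ _ _
    have : IsEmpty D := Fintype.card_eq_zero_iff.mp (by omega)
    exact ⟨fun _ => true, fun d => (this.false d).elim, fun d => (this.false d).elim⟩
  | succ n ih =>
    intro D _ _ hc s t hs hs' ht
    by_cases hE : IsEmpty D
    · exact ⟨fun _ => true, fun d => (hE.false d).elim, fun d => (hE.false d).elim⟩
    rw [not_isEmpty_iff] at hE
    obtain ⟨d0⟩ := hE
    set d1 := s d0 with hd1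
    have h10 : d1 ≠ d0 := hs' d0
    have hs1 : s d1 = d0 := hs d0
    let P : D → Prop := fun x => x ≠ d0 ∧ x ≠ d1
    have hsP : ∀ x, P x → P (s x) := by
      intro x hx
      refine ⟨fun h => hx.2 ?_, fun h => hx.1 ?_⟩
      · rw [← hs x, h]
      · rw [← hs x, h, hs1]
    have htinj : ∀ x y, t x = t y → x = y := fun x y h => by rw [← ht x, h, ht]
    -- the new involution
    let t' : {x // P x} → {x // P x} := fun x =>
      if h : P (t x.1) then ⟨t x.1, h⟩
      else if h : t x.1 = d0 ∧ P (t d1) then ⟨t d1, h.2⟩
      else if h : t x.1 = d1 ∧ P (t d0) then ⟨t d0, h.2⟩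
      else x
    have hcard : Fintype.card {x // P x} ≤ n := by
      have : Fintype.card {x // P x} < Fintype.card D :=
        Fintype.card_subtype_lt (x := d0) (fun h => h.1 rfl)
      omega
    have hnP : ∀ y, ¬ P y → y = d0 ∨ y = d1 := by
      intro y hy
      by_contra h
      push Not at h
      exact hy h
    obtain ⟨f, hf1, hf2⟩ := ih {x // P x} hcard (fun x => ⟨s x.1, hsP x.1 x.2⟩) t'
      (fun d => Subtype.ext (hs d.1)) (fun d h => hs' d.1 (congrArg Subtype.val h)) (by
        intro x
        apply Subtype.ext
        by_cases h1 : P (t x.1)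
        · have e1 : t' x = ⟨t x.1, h1⟩ := by simp only [t', dif_pos h1]
          rw [e1]
          have h2 : P (t (t x.1)) := by rw [ht]; exact x.2
          simp only [t', dif_pos h2]
          exact ht x.1
        · rcases hnP _ h1 with h2 | h2
          · have hx : x.1 = t d0 := by rw [← h2, ht]
            by_cases h3 : P (t d1)
            · have e1 : t' x = ⟨t d1, h3⟩ := by
                simp only [t', dif_neg h1, dif_pos (show t x.1 = d0 ∧ P (t d1) from ⟨h2, h3⟩)]
              rw [e1]
              have h4 : ¬ P (t (t d1)) := by rw [ht]; exact fun h => h.2 rfl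
              have h5 : ¬ (t (t d1) = d0 ∧ P (t d1)) := by
                rw [ht]; exact fun h => h10 h.1
              have h6 : t (t d1) = d1 ∧ P (t d0) := ⟨ht _, hx ▸ x.2⟩
              simp only [t', dif_neg h4, dif_neg h5, dif_pos h6]
              exact hx.symm
            · have h5 : ¬ (t x.1 = d0 ∧ P (t d1)) := fun h => h3 h.2
              have h6 : ¬ (t x.1 = d1 ∧ P (t d0)) := fun h => h10 (h.1.symm.trans h2)
              have e1 : t' x = x := by simp only [t', dif_neg h1, dif_neg h5, dif_neg h6]
              rw [e1, e1]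
          · have hx : x.1 = t d1 := by rw [← h2, ht]
            have h5 : ¬ (t x.1 = d0 ∧ P (t d1)) := fun h => h10 (h2.symm.trans h.1)
            by_cases h3 : P (t d0)
            · have e1 : t' x = ⟨t d0, h3⟩ := by
                simp only [t', dif_neg h1, dif_neg h5, dif_pos (show t x.1 = d1 ∧ P (t d0) from ⟨h2, h3⟩)]
              rw [e1]
              have h4 : ¬ P (t (t d0)) := by rw [ht]; exact fun h => h.1 rfl
              have h6 : t (t d0) = d0 ∧ P (t d1) := ⟨ht _, hx ▸ x.2⟩
              simp only [t', dif_neg h4, dif_pos h6]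
              exact hx.symm
            · have h6 : ¬ (t x.1 = d1 ∧ P (t d0)) := fun h => h3 h.2
              have e1 : t' x = x := by simp only [t', dif_neg h1, dif_neg h5, dif_neg h6]
              rw [e1, e1])
    -- the colour of `d0`
    let c0 : Bool := if h : P (t d0) then !(f ⟨t d0, h⟩) else
      if h : P (t d1) then f ⟨t d1, h⟩ else true
    let g : D → Bool := fun x => if h : P x then f ⟨x, h⟩ else if x = d0 then c0 else !c0
    have hg : ∀ x (h : P x), g x = f ⟨x, h⟩ := fun x h => by simp only [g, dif_pos h]
    have hg0 : g d0 = c0 := by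
      have : ¬ P d0 := fun h => h.1 rfl
      simp only [g, dif_neg this, if_true]
    have hg1 : g d1 = !c0 := by
      have : ¬ P d1 := fun h => h.2 rfl
      simp only [g, dif_neg this, if_neg h10]
    -- colours of the partners
    have hA : ∀ h : P (t d0), g (t d0) = !(g d0) := by
      intro h
      rw [hg _ h, hg0]
      simp only [c0, dif_pos h, Bool.not_not]
    have hB : ∀ h : P (t d1), g (t d1) = !(g d1) := by
      intro h
      rw [hg _ h, hg1]
      by_cases h0 : P (t d0)
      · have hx1 : t' ⟨t d0, h0⟩ = ⟨t d1, h⟩ := by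
          have h1 : ¬ P (t (t d0)) := by rw [ht]; exact fun h => h.1 rfl
          simp only [t', dif_neg h1, dif_pos (show t (t d0) = d0 ∧ P (t d1) from ⟨ht _, h⟩)]
        have hne : t' ⟨t d0, h0⟩ ≠ ⟨t d0, h0⟩ := by
          rw [hx1]
          intro h'
          exact h10 (htinj _ _ (congrArg Subtype.val h'))
        have := hf2 _ hne
        rw [hx1] at this
        simp only [c0, dif_pos h0]
        rw [this]
        cases f ⟨t d0, h0⟩ <;> rfl
      · simp only [c0, dif_neg h0, dif_pos h, Bool.not_not]
    refine ⟨g, ?_, ?_⟩
    · intro d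
      by_cases hd : P d
      · rw [hg _ hd, hg _ (hsP d hd)]
        exact hf1 ⟨d, hd⟩
      · rcases hnP d hd with rfl | rfl
        · rw [← hd1, hg1, hg0]
        · rw [hs1, hg1, hg0, Bool.not_not]
    · intro d hd
      by_cases hdP : P d
      · by_cases htP : P (t d)
        · have hx1 : t' ⟨d, hdP⟩ = ⟨t d, htP⟩ := by simp only [t', dif_pos htP]
          have hne : t' ⟨d, hdP⟩ ≠ ⟨d, hdP⟩ := by
            rw [hx1]; intro h'; exact hd (congrArg Subtype.val h')
          have := hf2 _ hne
          rw [hx1] at this
          rw [hg _ hdP, hg _ htP, this]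
        · rcases hnP _ htP with h | h
          · have hx : t d0 = d := by rw [← h, ht]
            have := hA (by rw [hx]; exact hdP)
            rw [hx] at this
            rw [h, this, Bool.not_not]
          · have hx : t d1 = d := by rw [← h, ht]
            have := hB (by rw [hx]; exact hdP)
            rw [hx] at this
            rw [h, this, Bool.not_not]
      · rcases hnP d hdP with h1 | h1
        · rw [h1] at hd ⊢
          by_cases htP : P (t d0)
          · exact hA htP
          · rcases hnP _ htP with h | h
            · exact (hd h).elim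
            · rw [h, hg1, hg0]
        · rw [h1] at hd ⊢
          by_cases htP : P (t d1)
          · exact hB htP
          · rcases hnP _ htP with h | h
            · rw [h, hg1, hg0, Bool.not_not]
            · exact (hd h).elim

/-- Pairing of the largest elements: every sign function which alternates on the pairs has a small
signed sum. -/
theorem pairing {D : Type} [DecidableEq D] (l : D → ℕ) (n : ℕ) : ∀ (S : Finset D), S.card ≤ n →
    ∀ L : ℕ, (∀ d ∈ S, l d ≤ L) →
    ∃ t : D → D, (∀ d ∈ S, t d ∈ S) ∧ (∀ d, t (t d) = d) ∧ (∀ d, d ∉ S → t d = d) ∧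
      ∀ σ : D → ℤ, (∀ d, σ d = 1 ∨ σ d = -1) → (∀ d ∈ S, t d ≠ d → σ (t d) = - σ d) →
        |∑ d ∈ S, σ d * (l d : ℤ)| ≤ L := by
  induction n with
  | zero =>
    intro S hS L _
    have : S = ∅ := Finset.card_eq_zero.mp (by omega)
    subst this
    exact ⟨id, by simp, by simp, by simp, by simp⟩
  | succ n ih =>
    intro S hS L hL
    by_cases hS0 : S = ∅
    · subst hS0
      exact ⟨id, by simp, by simp, by simp, by simp⟩
    obtain ⟨x, hxS, hx⟩ := Finset.exists_max_image S l (Finset.nonempty_iff_ne_empty.mpr hS0)
    by_cases hS1 : S.erase x = ∅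
    · have hSx : S = {x} := by
        rw [← Finset.insert_erase hxS, hS1]; rfl
      refine ⟨id, by simp, by simp, by simp, ?_⟩
      intro σ hσ _
      rw [hSx, Finset.sum_singleton]
      have h1 := hL x hxS
      have h2 : ((l x : ℕ) : ℤ) ≤ L := by exact_mod_cast h1
      have h3 : (0 : ℤ) ≤ (l x : ℤ) := by positivity
      rcases hσ x with h | h <;> rw [h, abs_le] <;> constructor <;> linarith
    · obtain ⟨y, hyS, hy⟩ := Finset.exists_max_image (S.erase x) l
        (Finset.nonempty_iff_ne_empty.mpr hS1)
      have hyx : y ≠ x := Finset.ne_of_mem_erase hyS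
      have hyS' : y ∈ S := Finset.mem_of_mem_erase hyS
      set S' := (S.erase x).erase y with hS'
      have hcard : S'.card ≤ n := by
        have h1 : (S.erase x).card + 1 = S.card := Finset.card_erase_add_one hxS
        have h2 : S'.card + 1 = (S.erase x).card := Finset.card_erase_add_one hyS
        omega
      obtain ⟨t, ht1, ht2, ht3, ht4⟩ := ih S' hcard (l y) (by
        intro d hd
        exact hy d (Finset.mem_of_mem_erase hd))
      have hxS' : x ∉ S' := by simp [hS']
      have hyS'' : y ∉ S' := by simp [hS']
      let t' : D → D := fun d => if d = x then y else if d = y then x else t d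
      have ex : t' x = y := by simp [t']
      have ey : t' y = x := by simp [t', hyx]
      have ed : ∀ d, d ≠ x → d ≠ y → t' d = t d := fun d h1 h2 => by simp [t', h1, h2]
      have htx : ∀ d, d ≠ x → d ≠ y → t d ≠ x ∧ t d ≠ y := by
        intro d h1 h2
        constructor
        · intro h
          have := ht2 d
          rw [h, ht3 x hxS'] at this
          exact h1 this.symm
        · intro h
          have := ht2 d
          rw [h, ht3 y hyS''] at this
          exact h2 this.symm
      refine ⟨t', ?_, ?_, ?_, ?_⟩
      · intro d hd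
        by_cases h1 : d = x
        · rw [h1, ex]; exact hyS'
        by_cases h2 : d = y
        · rw [h2, ey]; exact hxS
        rw [ed d h1 h2]
        have hdS' : d ∈ S' := by simp [hS', h1, h2, hd]
        have := ht1 d hdS'
        exact Finset.mem_of_mem_erase (Finset.mem_of_mem_erase this)
      · intro d
        by_cases h1 : d = x
        · rw [h1, ex, ey]
        by_cases h2 : d = y
        · rw [h2, ey, ex]
        rw [ed d h1 h2, ed _ (htx d h1 h2).1 (htx d h1 h2).2, ht2]
      · intro d hd
        have h1 : d ≠ x := fun h => hd (h ▸ hxS)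
        have h2 : d ≠ y := fun h => hd (h ▸ hyS')
        rw [ed d h1 h2]
        apply ht3
        intro h
        exact hd (Finset.mem_of_mem_erase (Finset.mem_of_mem_erase h))
      · intro σ hσ hσt
        have hrest := ht4 σ hσ (by
          intro d hd hne
          have hdS : d ∈ S := Finset.mem_of_mem_erase (Finset.mem_of_mem_erase hd)
          have h1 : d ≠ x := fun h => hxS' (h ▸ hd)
          have h2 : d ≠ y := fun h => hyS'' (h ▸ hd)
          have := hσt d hdS (by rw [ed d h1 h2]; exact hne)
          rwa [ed d h1 h2] at this)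
        have hxy : σ y = - σ x := by
          have := hσt x hxS (by rw [ex]; exact hyx)
          rwa [ex] at this
        rw [← Finset.add_sum_erase S _ hxS, ← Finset.add_sum_erase (S.erase x) _ hyS, hxy, ← hS']
        have h1 : ((l x : ℕ) : ℤ) ≤ L := by exact_mod_cast hL x hxS
        have h2 : ((l y : ℕ) : ℤ) ≤ l x := by exact_mod_cast hx y hyS'
        rw [abs_le] at hrest ⊢
        rcases hσ x with h | h <;> rw [h] <;> constructor <;> linarith [hrest.1, hrest.2]

/-- Every labelled graph has an orientation whose vertex sums are bounded by the largest label. -/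
theorem orient (V : Type) [Fintype V] [DecidableEq V] (H : SimpleGraph V) (l : Sym2 V → ℕ) (L : ℕ)
    (hL : ∀ e ∈ H.edgeSet, l e ≤ L) :
    ∃ o : V → V → Bool, (∀ u w, o u w = true → H.Adj u w) ∧
      (∀ u w, H.Adj u w → (o u w = true ↔ o w u = false)) ∧
      ∀ v, |(∑ w : V, (if o w v = true then ((l s(w, v) : ℕ) : ℤ) else 0)) -
        ∑ w : V, (if o v w = true then ((l s(v, w) : ℕ) : ℤ) else 0)| ≤ L := by
  classical
  let D : Type := {p : V × V // H.Adj p.1 p.2}
  let lab : D → ℕ := fun d => l s(d.1.1, d.1.2)
  let S : V → Finset D := fun v => Finset.univ.filter (fun d => d.1.1 = v)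
  have key : ∀ v : V, ∃ t : D → D, (∀ d ∈ S v, t d ∈ S v) ∧ (∀ d, t (t d) = d) ∧
      (∀ d, d ∉ S v → t d = d) ∧
      ∀ σ : D → ℤ, (∀ d, σ d = 1 ∨ σ d = -1) → (∀ d ∈ S v, t d ≠ d → σ (t d) = - σ d) →
        |∑ d ∈ S v, σ d * (lab d : ℤ)| ≤ L := fun v =>
    pairing lab (S v).card (S v) le_rfl L (fun d _ => hL _ d.2)
  choose t ht1 ht2 ht3 ht4 using key
  have hmem : ∀ (d : D) (v : V), d ∈ S v ↔ d.1.1 = v := fun d v => by simp [S]
  let T : D → D := fun d => t d.1.1 d
  have hTfst : ∀ d, (T d).1.1 = d.1.1 := fun d =>
    (hmem _ _).mp (ht1 d.1.1 d ((hmem _ _).mpr rfl))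
  have hTT : ∀ d, T (T d) = d := by
    intro d
    change t (T d).1.1 (T d) = d
    rw [hTfst]
    exact ht2 _ d
  let s : D → D := fun d => ⟨(d.1.2, d.1.1), d.2.symm⟩
  obtain ⟨f, hf1, hf2⟩ := two_inv (Fintype.card D) D le_rfl s T (fun d => rfl)
    (fun d h => d.2.ne (congrArg (fun x : D => x.1.1) h).symm) hTT
  let o : V → V → Bool := fun u w => if h : H.Adj u w then f ⟨(u, w), h⟩ else false
  have ho : ∀ u w (h : H.Adj u w), o u w = f ⟨(u, w), h⟩ := fun u w h => by simp only [o, dif_pos h]
  have ho' : ∀ u w, ¬ H.Adj u w → o u w = false := fun u w h => by simp only [o, dif_neg h]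
  refine ⟨o, ?_, ?_, ?_⟩
  · intro u w h
    by_contra hn
    rw [ho' u w hn] at h
    exact Bool.false_ne_true h
  · intro u w h
    rw [ho u w h, ho w u h.symm]
    have := hf1 ⟨(u, w), h⟩
    change f ⟨(w, u), _⟩ = _ at this
    rw [this]
    cases f ⟨(u, w), h⟩ <;> simp
  · intro v
    let σ : D → ℤ := fun d => if f d = true then -1 else 1
    have hσ : ∀ d, σ d = 1 ∨ σ d = -1 := by
      intro d
      by_cases h : f d = true
      · right; simp only [σ, if_pos h]
      · left; simp only [σ, if_neg h]
    have h4 := ht4 v σ hσ (by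
      intro d hd hne
      have hdv : d.1.1 = v := (hmem _ _).mp hd
      have hT : T d = t v d := by simp only [T, hdv]
      have := hf2 d (by rw [hT]; exact hne)
      rw [hT] at this
      simp only [σ, this]
      cases f d <;> simp)
    have hsum : (∑ w : V, (if o w v = true then ((l s(w, v) : ℕ) : ℤ) else 0)) -
        ∑ w : V, (if o v w = true then ((l s(v, w) : ℕ) : ℤ) else 0) =
        ∑ d ∈ S v, σ d * (lab d : ℤ) := by
      rw [← Finset.sum_sub_distrib]
      have hR : ∑ d ∈ S v, σ d * (lab d : ℤ) =
          ∑ w ∈ Finset.univ.filter (fun w => H.Adj v w),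
            ((if o w v = true then ((l s(w, v) : ℕ) : ℤ) else 0) -
              (if o v w = true then ((l s(v, w) : ℕ) : ℤ) else 0)) := by
        refine Finset.sum_bij (fun d _ => d.1.2) ?_ ?_ ?_ ?_
        · intro d hd
          have hdv : d.1.1 = v := (hmem _ _).mp hd
          simp only [Finset.mem_filter, Finset.mem_univ, true_and]
          rw [← hdv]
          exact d.2
        · intro d hd d' hd' h
          apply Subtype.ext
          apply Prod.ext
          · rw [(hmem _ _).mp hd, (hmem _ _).mp hd']
          · exact h
        · intro w hw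
          simp only [Finset.mem_filter, Finset.mem_univ, true_and] at hw
          exact ⟨⟨(v, w), hw⟩, (hmem _ _).mpr rfl, rfl⟩
        · intro d hd
          have hdv : d.1.1 = v := (hmem _ _).mp hd
          obtain ⟨⟨a, b⟩, hab⟩ := d
          simp only at hdv
          subst hdv
          simp only [lab]
          have h1 : o a b = f ⟨(a, b), hab⟩ := ho a b hab
          have h2 : o b a = !(f ⟨(a, b), hab⟩) := by
            rw [ho b a hab.symm]
            exact hf1 ⟨(a, b), hab⟩
          rw [h1, h2]
          simp only [σ]
          rw [Sym2.eq_swap (a := b) (b := a)]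
          cases f ⟨(a, b), hab⟩ <;> simp
      rw [hR, Finset.sum_filter]
      refine Finset.sum_congr rfl ?_
      intro w _
      by_cases h : H.Adj v w
      · rw [if_pos h]
      · rw [if_neg h, ho' v w h, ho' w v (fun h' => h h'.symm)]
        simp
    rw [hsum]
    exact h4

end Pool.Agent.AMP
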