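import Mathlib
import Pool.Agent.AMP.Orient

/-!
# From separated labellings of paths to antimagic orientations of graphs with a Hamiltonian path
-/

set_option autoImplicit false

namespace Pool.Agent.AMP

open Finset

/-- The separation statement for the path with `m` edges. -/
def PathSep (m : ℕ) : Prop := ∀ c : ℕ → ℤ, ∃ x : Equiv.Perm (Fin m), ∀ i j : ℕ, i ≤ m → j ≤ m →
  i ≠ j → i % 2 = j % 2 →
  c i + (∑ e : Fin m, if (e : ℕ) = i ∨ (e : ℕ) + 1 = i then ((x e : ℕ) : ℤ) else 0) ≠
  c j + (∑ e : Fin m, if (e : ℕ) = j ∨ (e : ℕ) + 1 = j then ((x e : ℕ) : ℤ) else 0)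

theorem antimagic_of_pathSep (V : Type) [Fintype V] (G : SimpleGraph V) (m : ℕ)
    (f : ℕ → V) (hinj : ∀ i j, i ≤ m → j ≤ m → f i = f j → i = j)
    (hsurj : ∀ v, ∃ i, i ≤ m ∧ f i = v) (hadj : ∀ i, i < m → G.Adj (f i) (f (i + 1)))
    (hsep : PathSep m) :
    ∃ (o : V → V → Bool) (ℓ : Sym2 V → ℤ),
      (∀ u v, o u v = true → G.Adj u v) ∧
      (∀ u v, G.Adj u v → (o u v = true ↔ o v u = false)) ∧
      Set.BijOn ℓ G.edgeSet (Set.Icc 1 (G.edgeSet.ncard : ℤ)) ∧
      Function.Injective (fun v : V =>
        (∑ w : V, (if o w v = true then ℓ s(w, v) else 0)) -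
        ∑ w : V, (if o v w = true then ℓ s(v, w) else 0)) := by
  classical
  -- the path edges
  let pe : Fin m → Sym2 V := fun e => s(f e, f (e + 1))
  have hpe_inj : Function.Injective pe := by
    intro e e' h
    have he := e.2
    have he' := e'.2
    rcases Sym2.eq_iff.mp h with ⟨h1, _⟩ | ⟨h1, h2⟩
    · exact Fin.ext (hinj _ _ (by omega) (by omega) h1)
    · have h3 := hinj _ _ (by omega) (by omega) h1
      have h4 := hinj _ _ (by omega) (by omega) h2
      omega
  have hpe_mem : ∀ e, pe e ∈ G.edgeSet := fun e => hadj e e.2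
  -- the other edges
  let H : SimpleGraph V := G.deleteEdges (Set.range pe)
  have hH : H.edgeSet = G.edgeSet \ Set.range pe := SimpleGraph.edgeSet_deleteEdges _
  have hHadj : ∀ u w, H.Adj u w ↔ G.Adj u w ∧ s(u, w) ∉ Set.range pe := fun u w =>
    SimpleGraph.deleteEdges_adj
  set q : ℕ := H.edgeFinset.card with hq
  let idx : H.edgeFinset ≃ Fin q := H.edgeFinset.equivFin
  let l : Sym2 V → ℕ := fun e => if h : e ∈ H.edgeFinset then (idx ⟨e, h⟩ : ℕ) + 1 else 0
  have hl : ∀ e (h : e ∈ H.edgeFinset), l e = (idx ⟨e, h⟩ : ℕ) + 1 := fun e h => by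
    simp only [l, dif_pos h]
  have hl0 : ∀ e, e ∉ H.edgeFinset → l e = 0 := fun e h => by simp only [l, dif_neg h]
  have hlle : ∀ e, l e ≤ q := by
    intro e
    by_cases h : e ∈ H.edgeFinset
    · rw [hl e h]; exact (idx ⟨e, h⟩).2
    · rw [hl0 e h]; exact Nat.zero_le _
  obtain ⟨oH, hoH1, hoH2, hoH3⟩ := orient V H l q (fun e _ => hlle e)
  let cH : V → ℤ := fun v => (∑ w : V, (if oH w v = true then ((l s(w, v) : ℕ) : ℤ) else 0)) -
        ∑ w : V, (if oH v w = true then ((l s(v, w) : ℕ) : ℤ) else 0)
  -- signs of the positions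
  let ε : ℕ → ℤ := fun i => if i % 2 = 0 then -1 else 1
  have hε : ∀ i, ε i * ε i = 1 := by
    intro i; simp only [ε]; split_ifs <;> norm_num
  let dg : ℕ → ℤ := fun i => ∑ e : Fin m, if (e : ℕ) = i ∨ (e : ℕ) + 1 = i then (1 : ℤ) else 0
  obtain ⟨x, hx⟩ := hsep (fun i => ε i * cH (f i) + ((q : ℤ) + 1) * dg i)
  -- labels of the path edges
  let lab : Fin m → ℤ := fun e => (q : ℤ) + 1 + ((x e : ℕ) : ℤ)
  have hlab1 : ∀ e, (q : ℤ) + 1 ≤ lab e := fun e => by simp only [lab]; linarith [Int.natCast_nonneg (x e : ℕ)]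
  have hlab2 : ∀ e, lab e ≤ (q : ℤ) + m := fun e => by
    simp only [lab]
    have := (x e).2
    have : ((x e : ℕ) : ℤ) + 1 ≤ m := by exact_mod_cast this
    linarith
  let S : ℕ → ℤ := fun i => ∑ e : Fin m, if (e : ℕ) = i ∨ (e : ℕ) + 1 = i then lab e else 0
  have hS : ∀ i, S i = ((q : ℤ) + 1) * dg i +
      ∑ e : Fin m, if (e : ℕ) = i ∨ (e : ℕ) + 1 = i then ((x e : ℕ) : ℤ) else 0 := by
    intro i
    simp only [S, dg, Finset.mul_sum, ← Finset.sum_add_distrib]
    refine Finset.sum_congr rfl fun e _ => ?_
    split_ifs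
    · simp only [lab]; ring
    · ring
  -- the labelling
  let ℓ : Sym2 V → ℤ := fun e => (l e : ℤ) + ∑ k : Fin m, if pe k = e then lab k else 0
  have hℓH : ∀ e, e ∈ H.edgeSet → ℓ e = l e := by
    intro e he
    simp only [ℓ]
    rw [Finset.sum_eq_zero, add_zero]
    intro k _
    rw [if_neg]
    intro h
    rw [hH] at he
    exact he.2 ⟨k, h⟩
  have hlP : ∀ k, l (pe k) = 0 := by
    intro k
    apply hl0
    rw [SimpleGraph.mem_edgeFinset, hH]
    exact fun h => h.2 ⟨k, rfl⟩
  have hℓP : ∀ k, ℓ (pe k) = lab k := by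
    intro k
    simp only [ℓ]
    rw [hlP k, Finset.sum_eq_single k]
    · simp
    · intro k' _ hne
      rw [if_neg]
      exact fun h => hne (hpe_inj h)
    · intro h; exact (h (Finset.mem_univ _)).elim
  -- the orientation of the path edges: from even to odd positions
  let oP : V → V → Bool := fun u w => decide (∃ k : Fin m, (u = f k ∧ w = f (k + 1) ∧ (k : ℕ) % 2 = 0) ∨
    (u = f (k + 1) ∧ w = f k ∧ (k : ℕ) % 2 = 1))
  have hoP : ∀ u w, oP u w = true ↔ (∃ k : Fin m, (u = f k ∧ w = f (k + 1) ∧ (k : ℕ) % 2 = 0) ∨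
    (u = f (k + 1) ∧ w = f k ∧ (k : ℕ) % 2 = 1)) := fun u w => by simp only [oP, decide_eq_true_eq]
  have hoPmem : ∀ u w, oP u w = true → ∃ k, pe k = s(u, w) := by
    intro u w h
    obtain ⟨k, ⟨h1, h2, _⟩ | ⟨h1, h2, _⟩⟩ := (hoP u w).mp h
    · exact ⟨k, by simp only [pe, h1, h2]⟩
    · exact ⟨k, by simp only [pe, h1, h2]; exact Sym2.eq_swap⟩
  -- orientation between positions
  have hoPpos : ∀ (k : Fin m), oP (f k) (f (k + 1)) = decide ((k : ℕ) % 2 = 0) ∧
      oP (f (k + 1)) (f k) = decide ((k : ℕ) % 2 = 1) := by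
    intro k
    have hk := k.2
    constructor
    · rw [Bool.eq_iff_iff, hoP, decide_eq_true_eq]
      constructor
      · rintro ⟨k', ⟨h1, h2, h3⟩ | ⟨h1, h2, h3⟩⟩
        · have hk' := k'.2
          have := hinj _ _ (by omega) (by omega) h1
          omega
        · have hk' := k'.2
          have h4 := hinj _ _ (by omega) (by omega) h1
          have h5 := hinj _ _ (by omega) (by omega) h2
          omega
      · intro h
        exact ⟨k, Or.inl ⟨rfl, rfl, h⟩⟩
    · rw [Bool.eq_iff_iff, hoP, decide_eq_true_eq]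
      constructor
      · rintro ⟨k', ⟨h1, h2, h3⟩ | ⟨h1, h2, h3⟩⟩
        · have hk' := k'.2
          have h4 := hinj _ _ (by omega) (by omega) h1
          have h5 := hinj _ _ (by omega) (by omega) h2
          omega
        · have hk' := k'.2
          have := hinj _ _ (by omega) (by omega) h2
          omega
      · intro h
        exact ⟨k, Or.inr ⟨rfl, rfl, h⟩⟩
  let o : V → V → Bool := fun u w => oH u w || oP u w
  have hoHP : ∀ u w, oH u w = true → oP u w = false ∧ oP w u = false := by
    intro u w h
    have h1 := (hHadj u w).mp (hoH1 u w h)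
    constructor
    · by_contra h2
      rw [Bool.not_eq_false] at h2
      obtain ⟨k, hk⟩ := hoPmem u w h2
      exact h1.2 ⟨k, hk⟩
    · by_contra h2
      rw [Bool.not_eq_false] at h2
      obtain ⟨k, hk⟩ := hoPmem w u h2
      exact h1.2 ⟨k, by rw [hk]; exact Sym2.eq_swap⟩
  -- contribution of one neighbour
  have hcontr : ∀ u w, (if o u w = true then ℓ s(u, w) else 0) =
      (if oH u w = true then ((l s(u, w) : ℕ) : ℤ) else 0) + (if oP u w = true then ℓ s(u, w) else 0) := by
    intro u w
    by_cases h1 : oH u w = true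
    · have h2 := (hoHP u w h1).1
      simp only [o, h1, h2, Bool.or_false, if_true, Bool.false_eq_true, if_false, add_zero]
      exact hℓH _ (hoH1 u w h1)
    · rw [Bool.not_eq_true] at h1
      simp only [o, h1, Bool.false_or, Bool.false_eq_true, if_false, zero_add]
  have hvert : ∀ i, i ≤ m →
      (∑ w : V, (if o w (f i) = true then ℓ s(w, f i) else 0)) -
        ∑ w : V, (if o (f i) w = true then ℓ s(f i, w) else 0) = cH (f i) + ε i * S i := by
    intro i hi
    have e1 : (∑ w : V, (if o w (f i) = true then ℓ s(w, f i) else 0)) =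
        (∑ w : V, (if oH w (f i) = true then ((l s(w, f i) : ℕ) : ℤ) else 0)) +
        ∑ w : V, (if oP w (f i) = true then ℓ s(w, f i) else 0) := by
      rw [← Finset.sum_add_distrib]
      exact Finset.sum_congr rfl fun w _ => hcontr w (f i)
    have e2 : (∑ w : V, (if o (f i) w = true then ℓ s(f i, w) else 0)) =
        (∑ w : V, (if oH (f i) w = true then ((l s(f i, w) : ℕ) : ℤ) else 0)) +
        ∑ w : V, (if oP (f i) w = true then ℓ s(f i, w) else 0) := by
      rw [← Finset.sum_add_distrib]
      exact Finset.sum_congr rfl fun w _ => hcontr (f i) w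
    have e3 : (∑ w : V, (if oP w (f i) = true then ℓ s(w, f i) else 0)) -
        ∑ w : V, (if oP (f i) w = true then ℓ s(f i, w) else 0) = ε i * S i := by
      rw [← Finset.sum_sub_distrib]
      -- for every `w` the term is a sum over the path edges
      have e4 : ∀ w : V, (if oP w (f i) = true then ℓ s(w, f i) else 0) -
          (if oP (f i) w = true then ℓ s(f i, w) else 0) =
          ∑ k : Fin m, (if pe k = s(w, f i) then ε i * lab k else 0) := by
        intro w
        by_cases hw : ∃ k, pe k = s(w, f i)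
        · obtain ⟨k, hk⟩ := hw
          rw [Finset.sum_eq_single k (by
            intro k' _ hne
            rw [if_neg]
            intro h
            exact hne (hpe_inj (h.trans hk.symm))) (by
            intro h; exact (h (Finset.mem_univ _)).elim), if_pos hk]
          rw [show s(f i, w) = s(w, f i) from Sym2.eq_swap, ← hk, hℓP]
          have hk2 := k.2
          rcases Sym2.eq_iff.mp hk with ⟨h1, h2⟩ | ⟨h1, h2⟩
          · have hki : (k : ℕ) + 1 = i := hinj _ _ (by omega) hi h2
            rw [← h1, ← hki, (hoPpos k).1, (hoPpos k).2]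
            simp only [ε, decide_eq_true_eq]
            rcases Nat.mod_two_eq_zero_or_one (k : ℕ) with h3 | h3
            · rw [if_pos h3, if_neg (by omega), if_neg (by omega)]; ring
            · rw [if_neg (by omega), if_pos h3, if_pos (by omega)]; ring
          · have hki : (k : ℕ) = i := hinj _ _ (by omega) hi h1
            rw [← h2, ← hki, (hoPpos k).1, (hoPpos k).2]
            simp only [ε, decide_eq_true_eq]
            rcases Nat.mod_two_eq_zero_or_one (k : ℕ) with h3 | h3
            · rw [if_neg (by omega), if_pos h3, if_pos h3]; ring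
            · rw [if_pos h3, if_neg (by omega), if_neg (by omega)]; ring
        · have h1 : oP w (f i) ≠ true := fun h => hw (hoPmem _ _ h)
          have h2 : oP (f i) w ≠ true := fun h => hw (by
            obtain ⟨k, hk⟩ := hoPmem _ _ h
            exact ⟨k, hk.trans Sym2.eq_swap⟩)
          rw [if_neg h1, if_neg h2, Finset.sum_eq_zero, sub_zero]
          intro k _
          rw [if_neg]
          exact fun h => hw ⟨k, h⟩
      rw [Finset.sum_congr rfl fun w _ => e4 w, Finset.sum_comm]
      simp only [S, Finset.mul_sum]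
      refine Finset.sum_congr rfl fun k _ => ?_
      have hk2 := k.2
      by_cases hk : (k : ℕ) = i ∨ (k : ℕ) + 1 = i
      · rw [if_pos hk]
        rcases hk with hk | hk
        · rw [Finset.sum_eq_single (f (k + 1))]
          · rw [if_pos]
            simp only [pe]
            rw [hk]
            exact Sym2.eq_swap
          · intro w _ hne
            rw [if_neg]
            intro h
            rcases Sym2.eq_iff.mp h with ⟨h1, h2⟩ | ⟨h1, h2⟩
            · have := hinj _ _ (by omega) hi h2
              omega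
            · exact hne h2.symm
          · intro h; exact (h (Finset.mem_univ _)).elim
        · rw [Finset.sum_eq_single (f k)]
          · rw [if_pos]
            simp only [pe]
            rw [hk]
          · intro w _ hne
            rw [if_neg]
            intro h
            rcases Sym2.eq_iff.mp h with ⟨h1, h2⟩ | ⟨h1, h2⟩
            · exact hne h1.symm
            · have := hinj _ _ (by omega) hi h1
              omega
          · intro h; exact (h (Finset.mem_univ _)).elim
      · rw [if_neg hk, mul_zero]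
        apply Finset.sum_eq_zero
        intro w _
        rw [if_neg]
        intro h
        rcases Sym2.eq_iff.mp h with ⟨h1, h2⟩ | ⟨h1, h2⟩
        · exact hk (Or.inr (hinj _ _ (by omega) hi h2))
        · exact hk (Or.inl (hinj _ _ (by omega) hi h1))
    rw [e1, e2]
    simp only [cH]
    linarith
  refine ⟨o, ℓ, ?_, ?_, ?_, ?_⟩
  · intro u w h
    simp only [o, Bool.or_eq_true] at h
    rcases h with h | h
    · exact ((hHadj u w).mp (hoH1 u w h)).1
    · obtain ⟨k, hk⟩ := hoPmem u w h
      have := hpe_mem k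
      rwa [hk] at this
  · intro u w h
    by_cases hmem : s(u, w) ∈ Set.range pe
    · obtain ⟨k, hk⟩ := hmem
      have hn1 : oH u w = false := by
        by_contra h1
        rw [Bool.not_eq_false] at h1
        exact ((hHadj u w).mp (hoH1 u w h1)).2 ⟨k, hk⟩
      have hn2 : oH w u = false := by
        by_contra h1
        rw [Bool.not_eq_false] at h1
        exact ((hHadj w u).mp (hoH1 w u h1)).2 ⟨k, hk.trans Sym2.eq_swap⟩
      simp only [o, hn1, hn2, Bool.false_or]
      rcases Sym2.eq_iff.mp hk with ⟨h1, h2⟩ | ⟨h1, h2⟩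
      · rw [← h1, ← h2, (hoPpos k).1, (hoPpos k).2]
        rcases Nat.mod_two_eq_zero_or_one (k : ℕ) with h3 | h3 <;> simp [h3]
      · rw [← h1, ← h2, (hoPpos k).1, (hoPpos k).2]
        rcases Nat.mod_two_eq_zero_or_one (k : ℕ) with h3 | h3 <;> simp [h3]
    · have hHuw : H.Adj u w := (hHadj u w).mpr ⟨h, hmem⟩
      have hn1 : oP u w = false := by
        by_contra h1
        rw [Bool.not_eq_false] at h1
        obtain ⟨k, hk⟩ := hoPmem u w h1
        exact hmem ⟨k, hk⟩
      have hn2 : oP w u = false := by
        by_contra h1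
        rw [Bool.not_eq_false] at h1
        obtain ⟨k, hk⟩ := hoPmem w u h1
        exact hmem ⟨k, hk.trans Sym2.eq_swap⟩
      simp only [o, hn1, hn2, Bool.or_false]
      exact hoH2 u w hHuw
  · -- the labelling is a bijection
    have hcard : (G.edgeSet.ncard : ℤ) = q + m := by
      have h1 : G.edgeSet = H.edgeSet ∪ Set.range pe := by
        rw [hH, Set.sdiff_union_of_subset]
        rintro _ ⟨k, rfl⟩
        exact hpe_mem k
      have h2 : Disjoint H.edgeSet (Set.range pe) := by
        rw [hH]; exact Set.disjoint_sdiff_left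
      rw [h1, Set.ncard_union_eq h2 (Set.toFinite _) (Set.toFinite _)]
      have h3 : H.edgeSet.ncard = q := by
        rw [hq, ← SimpleGraph.coe_edgeFinset, Set.ncard_coe_finset]
      have h4 : (Set.range pe).ncard = m := by
        rw [← Set.image_univ, Set.ncard_image_of_injective _ hpe_inj, Set.ncard_univ]
        simp
      rw [h3, h4]
      push_cast
      ring
    rw [hcard]
    have hcases : ∀ e ∈ G.edgeSet, e ∈ H.edgeSet ∨ ∃ k, pe k = e := by
      intro e he
      by_cases h : e ∈ Set.range pe
      · right; exact h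
      · left; rw [hH]; exact ⟨he, h⟩
    have hHval : ∀ e (he : e ∈ H.edgeSet), ℓ e = ((idx ⟨e, SimpleGraph.mem_edgeFinset.mpr he⟩ : ℕ) : ℤ) + 1 := by
      intro e he
      rw [hℓH e he, hl e (SimpleGraph.mem_edgeFinset.mpr he)]
      push_cast
      ring
    have hHle : ∀ e (he : e ∈ H.edgeSet), ℓ e ≤ q := by
      intro e he
      rw [hℓH e he]
      exact_mod_cast hlle e
    refine ⟨?_, ?_, ?_⟩
    · intro e he
      rcases hcases e he with h | ⟨k, rfl⟩
      · rw [Set.mem_Icc]
        constructor
        · rw [hHval e h]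
          linarith [Int.natCast_nonneg (idx ⟨e, SimpleGraph.mem_edgeFinset.mpr h⟩ : ℕ)]
        · linarith [hHle e h, Int.natCast_nonneg m]
      · rw [Set.mem_Icc, hℓP]
        constructor
        · linarith [hlab1 k, Int.natCast_nonneg q]
        · exact hlab2 k
    · intro e he e' he' hee
      rcases hcases e he with h | ⟨k, rfl⟩ <;> rcases hcases e' he' with h' | ⟨k', rfl⟩
      · rw [hHval e h, hHval e' h'] at hee
        have h1 : (idx ⟨e, SimpleGraph.mem_edgeFinset.mpr h⟩ : ℕ) =
            (idx ⟨e', SimpleGraph.mem_edgeFinset.mpr h'⟩ : ℕ) := by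
          have : ((idx ⟨e, SimpleGraph.mem_edgeFinset.mpr h⟩ : ℕ) : ℤ) =
            ((idx ⟨e', SimpleGraph.mem_edgeFinset.mpr h'⟩ : ℕ) : ℤ) := by linarith
          exact_mod_cast this
        have h2 := idx.injective (Fin.ext h1)
        exact congrArg Subtype.val h2
      · exfalso
        have := hHle e h
        rw [hℓP] at hee
        linarith [hlab1 k']
      · exfalso
        have := hHle e' h'
        rw [hℓP] at hee
        linarith [hlab1 k]
      · rw [hℓP, hℓP] at hee
        simp only [lab] at hee
        have h1 : ((x k : ℕ) : ℤ) = ((x k' : ℕ) : ℤ) := by linarith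
        have h2 : (x k : ℕ) = (x k' : ℕ) := by exact_mod_cast h1
        rw [x.injective (Fin.ext h2)]
    · intro y hy
      rw [Set.mem_Icc] at hy
      by_cases hyq : y ≤ q
      · have hlt : (y - 1).toNat < q := by omega
        set e := idx.symm ⟨(y - 1).toNat, hlt⟩ with he
        have heH : e.1 ∈ H.edgeSet := SimpleGraph.mem_edgeFinset.mp e.2
        refine ⟨e.1, ?_, ?_⟩
        · rw [hH] at heH; exact heH.1
        · rw [hHval e.1 heH]
          have h1 : idx ⟨e.1, SimpleGraph.mem_edgeFinset.mpr heH⟩ = idx e := rfl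
          have h2 : idx e = ⟨(y - 1).toNat, hlt⟩ := Equiv.apply_symm_apply _ _
          rw [h1, h2]
          simp only
          omega
      · have hlt : (y - q - 1).toNat < m := by omega
        refine ⟨pe (x.symm ⟨(y - q - 1).toNat, hlt⟩), hpe_mem _, ?_⟩
        rw [hℓP]
        simp only [lab, Equiv.apply_symm_apply]
        omega
  · -- distinct vertex sums
    have hdg : ∀ i, i ≤ m → 1 ≤ m → (q : ℤ) + 1 ≤ S i := by
      intro i hi hm
      by_cases him : i < m
      · have h1 : (if ((⟨i, him⟩ : Fin m) : ℕ) = i ∨ ((⟨i, him⟩ : Fin m) : ℕ) + 1 = i then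
            lab ⟨i, him⟩ else 0) ≤ S i := by
          refine Finset.single_le_sum (f := fun e : Fin m =>
            if (e : ℕ) = i ∨ (e : ℕ) + 1 = i then lab e else 0) ?_ (Finset.mem_univ _)
          intro e _
          split_ifs
          · linarith [hlab1 e, Int.natCast_nonneg q]
          · exact le_refl _
        rw [if_pos (Or.inl rfl)] at h1
        linarith [hlab1 ⟨i, him⟩]
      · have him' : i - 1 < m := by omega
        have h1 : (if ((⟨i - 1, him'⟩ : Fin m) : ℕ) = i ∨ ((⟨i - 1, him'⟩ : Fin m) : ℕ) + 1 = i then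
            lab ⟨i - 1, him'⟩ else 0) ≤ S i := by
          refine Finset.single_le_sum (f := fun e : Fin m =>
            if (e : ℕ) = i ∨ (e : ℕ) + 1 = i then lab e else 0) ?_ (Finset.mem_univ _)
          intro e _
          split_ifs
          · linarith [hlab1 e, Int.natCast_nonneg q]
          · exact le_refl _
        rw [if_pos (Or.inr (by simp only; omega))] at h1
        linarith [hlab1 ⟨i - 1, him'⟩]
    intro v v' hvv
    obtain ⟨i, hi, rfl⟩ := hsurj v
    obtain ⟨j, hj, rfl⟩ := hsurj v'
    dsimp only at hvv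
    rw [hvert i hi, hvert j hj] at hvv
    by_contra hne
    have hij : i ≠ j := fun h => hne (by rw [h])
    have hm : 1 ≤ m := by omega
    have hci := abs_le.mp (hoH3 (f i))
    have hcj := abs_le.mp (hoH3 (f j))
    change -(q : ℤ) ≤ cH (f i) ∧ cH (f i) ≤ q at hci
    change -(q : ℤ) ≤ cH (f j) ∧ cH (f j) ≤ q at hcj
    have hSi := hdg i hi hm
    have hSj := hdg j hj hm
    rcases Nat.mod_two_eq_zero_or_one i with h1 | h1 <;>
      rcases Nat.mod_two_eq_zero_or_one j with h2 | h2
    · have ei : ε i = -1 := by simp only [ε, h1, if_true]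
      have ej : ε j = -1 := by simp only [ε, h2, if_true]
      apply hx i j hi hj hij (h1.trans h2.symm)
      rw [ei, ej] at hvv ⊢
      have e1 := hS i
      have e2 := hS j
      linarith
    · have ei : ε i = -1 := by simp only [ε, h1, if_true]
      have ej : ε j = 1 := by simp only [ε, h2]; norm_num
      rw [ei, ej] at hvv
      linarith
    · have ei : ε i = 1 := by simp only [ε, h1]; norm_num
      have ej : ε j = -1 := by simp only [ε, h2, if_true]
      rw [ei, ej] at hvv
      linarith
    · have ei : ε i = 1 := by simp only [ε, h1]; norm_num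
      have ej : ε j = 1 := by simp only [ε, h2]; norm_num
      apply hx i j hi hj hij (h1.trans h2.symm)
      rw [ei, ej] at hvv ⊢
      have e1 := hS i
      have e2 := hS j
      linarith

end Pool.Agent.AMP
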