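import Mathlib

namespace Pool.Agent.AMP

open Finset

/-- A sum over a full period is invariant under shifts. -/
lemma ps_rot (n : ℕ) (G : ℕ → ℤ) (hG : ∀ i, G (i + n) = G i) (r : ℕ) :
    ∑ p ∈ range n, G (p + r) = ∑ p ∈ range n, G p := by
  induction r with
  | zero => simp
  | succ r ih =>
    have h1 : ∑ p ∈ range (n+1), G (p + r) = ∑ p ∈ range n, G (p + r) + G (n + r) :=
      sum_range_succ _ _
    have h2 : ∑ p ∈ range (n+1), G (p + r) = ∑ p ∈ range n, G (p + 1 + r) + G (0 + r) :=
      sum_range_succ' _ _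
    have h3 : G (n + r) = G (0 + r) := by
      rw [zero_add, add_comm]; exact hG r
    have h4 : ∑ p ∈ range n, G (p + (r+1)) = ∑ p ∈ range n, G (p + 1 + r) :=
      sum_congr rfl (fun p _ => by congr 1; ring)
    rw [h4]; linarith

/-- Injective values in `0..m` on `m` places plus one more value with the right total. -/
lemma ps_sq (m : ℕ) (κ : Fin m → ℕ) (hinj : Function.Injective κ) (hle : ∀ e, κ e ≤ m)
    (f : ℤ) (hs : ∑ e, (κ e : ℤ) + f = ∑ i ∈ range (m+1), (i:ℤ)) :
    ∑ e, (κ e : ℤ)^2 + f^2 = ∑ i ∈ range (m+1), (i:ℤ)^2 := by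
  classical
  set S : Finset ℕ := Finset.univ.image κ with hS
  have hcard : S.card = m := by
    rw [hS, card_image_of_injective _ hinj]; simp
  have hsub : S ⊆ range (m+1) := by
    intro a ha
    rw [hS, mem_image] at ha
    obtain ⟨e, -, rfl⟩ := ha
    exact mem_range.2 (Nat.lt_succ_of_le (hle e))
  have hdc : (range (m+1) \ S).card = 1 := by
    rw [card_sdiff_of_subset hsub, hcard]; simp
  obtain ⟨j, hj⟩ := card_eq_one.1 hdc
  have key : ∀ g : ℕ → ℤ, ∑ i ∈ range (m+1), g i = ∑ e, g (κ e) + g j := by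
    intro g
    rw [← sum_sdiff hsub, hj, sum_singleton, hS, sum_image (fun a _ b _ h => hinj h)]
    ring
  have h1 := key (fun i => (i:ℤ))
  have h2 := key (fun i => (i:ℤ)^2)
  have h3 : f = (j:ℤ) := by
    linarith
  rw [h2, h3]

/-- Signed telescoping. -/
lemma ps_tele (y : ℕ → ℤ) (M : ℕ) : ∀ n : ℕ,
    ∑ p ∈ range n, (if p < M then y (p+1) - y p else - (y (p+1) - y p))
      = if n ≤ M then y n - y 0 else 2 * y M - y 0 - y n := by
  intro n
  induction n with
  | zero => simp
  | succ n ih =>
    rw [sum_range_succ, ih]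
    by_cases h : n + 1 ≤ M
    · rw [if_pos (by omega : n ≤ M), if_pos (by omega : n < M), if_pos h]; ring
    · rw [if_neg h]
      by_cases h' : n ≤ M
      · have : n = M := by omega
        subst this
        rw [if_pos le_rfl, if_neg (by omega)]; ring
      · rw [if_neg h', if_neg (by omega)]; ring

lemma ps_step (n : ℕ) (y : ℕ → ℤ) (M : ℕ) (hM : M ≤ n) (hper : y n = y 0) :
    ∑ p ∈ range n, (y (p+1) - y p)^2 = 2 * y M - 2 * y 0 +
      ∑ p ∈ range n, (if p < M then (y (p+1) - y p)^2 - (y (p+1) - y p)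
        else (y (p+1) - y p)^2 + (y (p+1) - y p)) := by
  have h := ps_tele y M n
  have h2 : (if n ≤ M then y n - y 0 else 2 * y M - y 0 - y n) = 2 * y M - 2 * y 0 := by
    split_ifs with hc
    · have : n = M := by omega
      subst this; rw [hper]; ring
    · rw [hper]; ring
  rw [h2] at h
  rw [← h, ← sum_add_distrib]
  refine sum_congr rfl (fun p _ => ?_)
  split_ifs <;> ring

lemma ps_step_nonneg (y : ℕ → ℤ) (M p : ℕ) :
    0 ≤ (if p < M then (y (p+1) - y p)^2 - (y (p+1) - y p)
        else (y (p+1) - y p)^2 + (y (p+1) - y p)) := by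
  set d := y (p+1) - y p
  have h1 : d ≤ d^2 := Int.le_self_sq d
  have h2 : -d ≤ d^2 := by
    have := Int.le_self_sq (-d)
    rwa [neg_sq] at this
  split_ifs <;> linarith

lemma ps_tv (n : ℕ) (y : ℕ → ℤ) (M : ℕ) (hM : M ≤ n) (hper : y n = y 0) :
    2 * y M - 2 * y 0 ≤ ∑ p ∈ range n, (y (p+1) - y p)^2 := by
  rw [ps_step n y M hM hper]
  have : 0 ≤ ∑ p ∈ range n, (if p < M then (y (p+1) - y p)^2 - (y (p+1) - y p)
        else (y (p+1) - y p)^2 + (y (p+1) - y p)) :=
    sum_nonneg (fun p _ => ps_step_nonneg y M p)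
  linarith

/-- The core of the rigidity. -/
lemma ps_core (n : ℕ) (y : ℕ → ℤ) (M z : ℕ) (hM : M ≤ n)
    (hz0 : 0 < z) (hzn : z < n) (hyz : y z = 0)
    (hper : y n = y 0) (hnn : ∀ p, p ≤ n → 0 ≤ y p)
    (hsq : ∑ p ∈ range n, (y (p+1) - y p)^2 ≤ 2 * y M - 2 * y 0)
    (hsum : ∑ p ∈ range n, y p = ∑ p ∈ range n, min (p:ℤ) ((n:ℤ) - 1 - p)) :
    (∀ p < n, y p = min (p:ℤ) ((n:ℤ) - 1 - p)) ∨
      (∀ p < n, y (p+1) = min (p:ℤ) ((n:ℤ) - 1 - p)) := by
  have hst := ps_step n y M hM hper
  have h0 : ∑ p ∈ range n, (if p < M then (y (p+1) - y p)^2 - (y (p+1) - y p)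
        else (y (p+1) - y p)^2 + (y (p+1) - y p)) = 0 := by
    have : 0 ≤ ∑ p ∈ range n, (if p < M then (y (p+1) - y p)^2 - (y (p+1) - y p)
        else (y (p+1) - y p)^2 + (y (p+1) - y p)) :=
      sum_nonneg (fun p _ => ps_step_nonneg y M p)
    linarith
  have h1 := (sum_eq_zero_iff_of_nonneg (fun p _ => ps_step_nonneg y M p)).1 h0
  have hup : ∀ p, p < M → y p ≤ y (p+1) ∧ y (p+1) ≤ y p + 1 := by
    intro p hp
    have h := h1 p (mem_range.2 (by omega))
    simp only [hp, if_true] at h
    have h2 : (y (p+1) - y p) * ((y (p+1) - y p) - 1) = 0 := by linarith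
    rcases mul_eq_zero.1 h2 with h3 | h3 <;> constructor <;> linarith
  have hdn : ∀ p, M ≤ p → p < n → y (p+1) ≤ y p ∧ y p ≤ y (p+1) + 1 := by
    intro p hp hpn
    have h := h1 p (mem_range.2 hpn)
    simp only [not_lt.2 hp, if_false] at h
    have h2 : (y (p+1) - y p) * ((y (p+1) - y p) + 1) = 0 := by linarith
    rcases mul_eq_zero.1 h2 with h3 | h3 <;> constructor <;> linarith
  have hlip : ∀ p, p < n → y (p+1) ≤ y p + 1 ∧ y p ≤ y (p+1) + 1 := by
    intro p hp
    by_cases h : p < M
    · have := hup p h; constructor <;> linarith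
    · have := hdn p (by omega) hp; constructor <;> linarith
  have hmono : ∀ p k, p + k ≤ M → y p ≤ y (p + k) := by
    intro p k
    induction k with
    | zero => intro _; simp
    | succ k ih =>
      intro h
      have := hup (p+k) (by omega)
      have h2 := ih (by omega)
      rw [← add_assoc]
      linarith
  have hanti : ∀ p k, M ≤ p → p + k ≤ n → y (p + k) ≤ y p := by
    intro p k hp
    induction k with
    | zero => intro _; simp
    | succ k ih =>
      intro h
      have := hdn (p+k) (by omega) (by omega)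
      have h2 := ih (by omega)
      rw [← add_assoc]
      linarith
  -- Lipschitz bounds
  have hL : ∀ p k, p + k ≤ n → y (p + k) ≤ y p + k ∧ y p ≤ y (p+k) + k := by
    intro p k
    induction k with
    | zero => intro _; simp
    | succ k ih =>
      intro h
      have h2 := ih (by omega)
      have h3 := hlip (p+k) (by omega)
      rw [← add_assoc]
      push_cast
      constructor <;> linarith
  by_cases hzM : z ≤ M
  · right
    have hy1 : y 1 = 0 := by
      have h2 := hmono 1 (z-1) (by omega)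
      have h3 : 1 + (z-1) = z := by omega
      rw [h3, hyz] at h2
      have := hnn 1 (by omega)
      linarith
    have hy0 : y 0 = 0 := by
      have h2 := hmono 0 1 (by omega)
      simp only [zero_add] at h2
      have := hnn 0 (by omega)
      linarith
    have hle : ∀ p ∈ range n, y (p+1) ≤ min (p:ℤ) ((n:ℤ) - 1 - p) := by
      intro p hp
      have hp' := mem_range.1 hp
      have h2 := (hL 1 p (by omega)).1
      have h3 := (hL (p+1) (n - (p+1)) (by omega)).2
      have h4 : p + 1 + (n - (p+1)) = n := by omega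
      have h5 : ((n - (p+1) : ℕ) : ℤ) = (n:ℤ) - 1 - p := by omega
      rw [h4, hper, hy0, h5] at h3
      rw [add_comm 1 p, hy1] at h2
      exact le_min (by linarith) (by linarith)
    have hs2 : ∑ p ∈ range n, y (p+1) = ∑ p ∈ range n, min (p:ℤ) ((n:ℤ) - 1 - p) := by
      rw [← hsum]
      have h5 : ∑ p ∈ range (n+1), y p = ∑ p ∈ range n, y p + y n := sum_range_succ _ _
      have h6 : ∑ p ∈ range (n+1), y p = ∑ p ∈ range n, y (p+1) + y 0 := sum_range_succ' _ _
      linarith
    have := (sum_eq_sum_iff_of_le hle).1 hs2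
    exact fun p hp => this p (mem_range.2 hp)
  · left
    have hy1 : y (n-1) = 0 := by
      have h2 := hanti z (n-1-z) (by omega) (by omega)
      have h3 : z + (n-1-z) = n-1 := by omega
      rw [h3, hyz] at h2
      have := hnn (n-1) (by omega)
      linarith
    have hy0 : y 0 = 0 := by
      have h2 := hanti z (n-z) (by omega) (by omega)
      have h3 : z + (n-z) = n := by omega
      rw [h3, hyz, hper] at h2
      have := hnn 0 (by omega)
      linarith
    have hle : ∀ p ∈ range n, y p ≤ min (p:ℤ) ((n:ℤ) - 1 - p) := by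
      intro p hp
      have hp' := mem_range.1 hp
      have h2 := (hL 0 p (by omega)).1
      have h3 := (hL p (n - 1 - p) (by omega)).2
      have h4 : p + (n - 1 - p) = n - 1 := by omega
      have h5 : ((n - 1 - p : ℕ) : ℤ) = (n:ℤ) - 1 - p := by omega
      rw [h4, hy1, h5] at h3
      rw [zero_add, hy0] at h2
      exact le_min (by linarith) (by linarith)
    have := (sum_eq_sum_iff_of_le hle).1 hsum
    exact fun p hp => this p (mem_range.2 hp)

end Pool.Agent.AMP
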