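import Mathlib
import Pool.Agent.AMP.PathCore

namespace Pool.Agent.AMP

open Finset

/-- The labels along the path: even places from the first permutation, odd places from the
second one. -/
def lab {a b : ℕ} (α : Equiv.Perm (Fin a)) (β : Equiv.Perm (Fin b)) (i : ℕ) : ℕ :=
  if i % 2 = 0 then (if h : i / 2 < a then ((α ⟨i / 2, h⟩ : Fin a) : ℕ) else 0)
  else (if h : i / 2 < b then ((β ⟨i / 2, h⟩ : Fin b) : ℕ) else 0)

/-- The shifts, seen from the root. -/
def qr (m p : ℕ) : ℕ :=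
  if m % 2 = 0 then p % 2 else if p < m / 2 then p % 2 else if p = m / 2 then 1 else (p + 1) % 2

/-- Position on the closed path, seen from the root. -/
def rot (m i : ℕ) : ℕ := if i ≤ m / 2 then i + (m - m / 2) else i - (m / 2 + 1)

lemma lab_le {m : ℕ} (α : Equiv.Perm (Fin (m/2+1))) (β : Equiv.Perm (Fin ((m+1)/2))) (i : ℕ) :
    lab α β i ≤ m / 2 := by
  unfold lab
  split_ifs with h1 h2 h3
  · have := (α ⟨i / 2, h2⟩).2; omega
  · omega
  · have := (β ⟨i / 2, h3⟩).2; omega
  · omega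

lemma lab_odd_lt {m : ℕ} (hm : 1 ≤ m) (α : Equiv.Perm (Fin (m/2+1)))
    (β : Equiv.Perm (Fin ((m+1)/2))) (i : ℕ) (hi : i % 2 = 1) :
    lab α β i < (m+1) / 2 := by
  unfold lab
  rw [if_neg (by omega)]
  split_ifs with h3
  · exact (β ⟨i / 2, h3⟩).2
  · omega

lemma ps_split (G : ℕ → ℤ) : ∀ k, ∑ i ∈ range (2*k), G i
    = ∑ j ∈ range k, G (2*j) + ∑ j ∈ range k, G (2*j+1) := by
  intro k
  induction k with
  | zero => simp
  | succ k ih =>
    rw [show 2*(k+1) = 2*k+1+1 by ring, sum_range_succ, sum_range_succ, ih, sum_range_succ,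
      sum_range_succ]
    ring

lemma ps_split' (m : ℕ) (G : ℕ → ℤ) : ∑ i ∈ range (m+1), G i
    = ∑ j ∈ range (m/2+1), G (2*j) + ∑ j ∈ range ((m+1)/2), G (2*j+1) := by
  rcases Nat.even_or_odd' m with ⟨k, rfl | rfl⟩
  · rw [sum_range_succ, ps_split, show 2*k/2 = k by omega, show (2*k+1)/2 = k by omega,
      sum_range_succ]
    ring
  · rw [show 2*k+1+1 = 2*(k+1) by ring, ps_split, show (2*k+1)/2 = k by omega,
      show 2*(k+1)/2 = k+1 by omega]

lemma lab_sum {m : ℕ} (α : Equiv.Perm (Fin (m/2+1))) (β : Equiv.Perm (Fin ((m+1)/2)))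
    (g : ℕ → ℤ) : ∑ i ∈ range (m+1), g (lab α β i)
      = ∑ j ∈ range (m/2+1), g j + ∑ j ∈ range ((m+1)/2), g j := by
  rw [ps_split']
  congr 1
  · rw [Finset.sum_range, Finset.sum_range, ← Equiv.sum_comp α (fun i => g (i:ℕ))]
    refine Fintype.sum_congr _ _ (fun i => ?_)
    unfold lab
    rw [if_pos (by omega), dif_pos (by have := i.2; omega)]
    congr 4
    omega
  · rw [Finset.sum_range, Finset.sum_range, ← Equiv.sum_comp β (fun i => g (i:ℕ))]
    refine Fintype.sum_congr _ _ (fun i => ?_)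
    unfold lab
    rw [if_neg (by omega), dif_pos (by have := i.2; omega)]
    congr 4
    omega

lemma ps_qa (y : ℕ → ℤ) : ∀ N : ℕ, ∑ p ∈ range N, ((p % 2 : ℕ) : ℤ) * (y p + y (p+1))
    = ∑ p ∈ range N, y p - y 0 + (if N % 2 = 0 then y N else 0) := by
  intro N
  induction N with
  | zero => simp
  | succ N ih =>
    rw [sum_range_succ, ih, sum_range_succ]
    rcases Nat.mod_two_eq_zero_or_one N with h | h
    · rw [if_pos h, if_neg (by omega), h]; push_cast; ring
    · rw [if_neg (by omega), if_pos (by omega), h]; push_cast; ring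

lemma ps_qb (y : ℕ → ℤ) : ∀ N : ℕ, ∑ p ∈ range N, (((p + 1) % 2 : ℕ) : ℤ) * (y p + y (p+1))
    = ∑ p ∈ range N, y p + (if N % 2 = 1 then y N else 0) := by
  intro N
  induction N with
  | zero => simp
  | succ N ih =>
    rw [sum_range_succ, ih, sum_range_succ]
    rcases Nat.mod_two_eq_zero_or_one N with h | h
    · rw [if_neg (by omega), if_pos (by omega), show (N+1) % 2 = 1 by omega]; push_cast; ring
    · rw [if_pos h, if_neg (by omega), show (N+1) % 2 = 0 by omega]; push_cast; ring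

lemma qr_sum (m : ℕ) (y : ℕ → ℤ) :
    ∑ p ∈ range (m+1), (qr m p : ℤ) * (y p + y (p+1))
      = ∑ p ∈ range (m+1), y p - y 0 + (if m % 2 = 1 then y (m/2 + (m/2) % 2) else 0) := by
  rcases Nat.even_or_odd' m with ⟨h, rfl | rfl⟩
  · have h1 : ∀ p, qr (2*h) p = p % 2 := by
      intro p; unfold qr; rw [if_pos (by omega)]
    simp only [h1]
    rw [ps_qa, if_neg (by omega), if_neg (by omega)]
  · have e1 : (2*h+1)/2 = h := by omega
    have h1 : ∀ p, qr (2*h+1) p = if p < h then p % 2 else if p = h then 1 else (p+1) % 2 := by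
      intro p; unfold qr; rw [if_neg (by omega), e1]
    rw [if_pos (by omega), e1]
    have hs : ∀ f : ℕ → ℤ, ∑ p ∈ range (2*h+1+1), f p
        = ∑ p ∈ range h, f p + f h + ∑ r ∈ range (h+1), f (h+1+r) := by
      intro f
      rw [show 2*h+1+1 = (h+1) + (h+1) by ring, sum_range_add, sum_range_succ]
    rw [hs, hs]
    have p1 : ∑ p ∈ range h, (qr (2*h+1) p : ℤ) * (y p + y (p+1))
        = ∑ p ∈ range h, ((p % 2 : ℕ) : ℤ) * (y p + y (p+1)) := by
      refine sum_congr rfl (fun p hp => ?_)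
      rw [h1, if_pos (mem_range.1 hp)]
    have p2 : (qr (2*h+1) h : ℤ) = 1 := by
      rw [h1, if_neg (by omega), if_pos rfl]; rfl
    rw [p1, p2, ps_qa]
    rcases Nat.mod_two_eq_zero_or_one h with hh | hh
    · have p3 : ∑ r ∈ range (h+1), (qr (2*h+1) (h+1+r) : ℤ) * (y (h+1+r) + y (h+1+r+1))
          = ∑ r ∈ range (h+1), ((r % 2 : ℕ) : ℤ) * (y (h+1+r) + y (h+1+(r+1))) := by
        refine sum_congr rfl (fun r hr => ?_)
        rw [h1, if_neg (by omega), if_neg (by omega), show (h+1+r+1) % 2 = r % 2 by omega,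
          add_assoc (h+1) r 1]
      rw [p3, ps_qa (fun r => y (h+1+r)), if_pos hh, if_neg (by omega), hh]
      simp only [add_zero]
      ring
    · have p3 : ∑ r ∈ range (h+1), (qr (2*h+1) (h+1+r) : ℤ) * (y (h+1+r) + y (h+1+r+1))
          = ∑ r ∈ range (h+1), (((r + 1) % 2 : ℕ) : ℤ) * (y (h+1+r) + y (h+1+(r+1))) := by
        refine sum_congr rfl (fun r hr => ?_)
        rw [h1, if_neg (by omega), if_neg (by omega), show (h+1+r+1) % 2 = (r + 1) % 2 by omega,
          add_assoc (h+1) r 1]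
      rw [p3, ps_qb (fun r => y (h+1+r)), if_neg (by omega), if_neg (by omega), hh]
      ring

lemma ps_gauss1 (k : ℕ) : 2 * ∑ i ∈ range k, (i:ℤ) = (k:ℤ) * (k - 1) := by
  induction k with
  | zero => simp
  | succ k ih => rw [sum_range_succ, mul_add, ih]; push_cast; ring

lemma ps_gauss2 (k : ℕ) : 6 * ∑ i ∈ range k, (i:ℤ)^2 = (k:ℤ) * (k - 1) * (2*k - 1) := by
  induction k with
  | zero => simp
  | succ k ih => rw [sum_range_succ, mul_add, ih]; push_cast; ring

end Pool.Agent.AMP
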