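import Mathlib
import Pool.Agent.AMP.PathSurv

namespace Pool.Agent.AMP

open Finset

/-- The first solution. -/
def x1 (m i : ℕ) : ℕ := if i ≤ m / 2 then m / 2 - i else i - m / 2 - 1

/-- The second solution (only for `m % 4 = 3`). -/
def x2 (m i : ℕ) : ℕ := if i = 0 then m / 2 else if i ≤ m / 2 then m / 2 + 1 - i else i - m / 2 - 2

lemma qr_sq (m p : ℕ) : (qr m p : ℤ)^2 = qr m p := by
  have : qr m p = 0 ∨ qr m p = 1 := by
    unfold qr
    split_ifs <;> omega
  rcases this with h | h <;> rw [h] <;> norm_num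

lemma qr_le (m p : ℕ) : qr m p ≤ 1 := by
  unfold qr
  split_ifs <;> omega

/-- The cyclic label sequence seen from the root. -/
def cyc (m : ℕ) (x : ℕ → ℕ) (p : ℕ) : ℤ := (x ((p + (m/2+1)) % (m+1)) : ℤ)

lemma cyc_per (m : ℕ) (x : ℕ → ℕ) : cyc m x (m+1) = cyc m x 0 := by
  unfold cyc
  rw [zero_add, add_comm (m+1), Nat.add_mod_right]

lemma cyc_rot (m : ℕ) (x : ℕ → ℕ) (i : ℕ) (hi : i ≤ m) : cyc m x (rot m i) = x i := by
  unfold cyc rot
  congr 2
  split_ifs with h
  · rw [show i + (m - m/2) + (m/2+1) = i + (m+1) by omega, Nat.add_mod_right,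
      Nat.mod_eq_of_lt (by omega)]
  · rw [show i - (m/2+1) + (m/2+1) = i by omega, Nat.mod_eq_of_lt (by omega)]

lemma rot_lt (m i : ℕ) (hi : i ≤ m) : rot m i < m + 1 := by
  unfold rot
  split_ifs <;> omega

lemma rot_inv (m p : ℕ) (hp : p < m + 1) : rot m ((p + (m/2+1)) % (m+1)) = p := by
  unfold rot
  by_cases h : p + (m/2+1) < m + 1
  · rw [Nat.mod_eq_of_lt h, if_neg (by omega)]; omega
  · rw [Nat.mod_eq_sub_mod (by omega), Nat.mod_eq_of_lt (by omega), if_pos (by omega)]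
    omega

/-- cyclic sums in the two coordinates -/
lemma cyc_sum (m : ℕ) (x : ℕ → ℕ) (F : ℤ → ℤ → ℤ → ℤ) :
    ∑ p ∈ range (m+1), F (cyc m x p) (cyc m x (p+1)) (qr m p)
      = ∑ e : Fin m, F (x e) (x (e+1)) (qr m (rot m e)) + F (x m) (x 0) (qr m (rot m m)) := by
  set G : ℕ → ℤ := fun i => F (x (i % (m+1))) (x ((i+1) % (m+1))) (qr m (rot m (i % (m+1))))
    with hG
  have hper : ∀ i, G (i + (m+1)) = G i := by
    intro i
    simp only [hG]
    rw [Nat.add_mod_right, show i + (m+1) + 1 = i + 1 + (m+1) by ring, Nat.add_mod_right]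
  have h1 := ps_rot (m+1) G hper (m/2+1)
  have h2 : ∑ p ∈ range (m+1), G (p + (m/2+1))
      = ∑ p ∈ range (m+1), F (cyc m x p) (cyc m x (p+1)) (qr m p) := by
    refine sum_congr rfl (fun p hp => ?_)
    simp only [hG]
    rw [rot_inv m p (mem_range.1 hp)]
    unfold cyc
    rw [show p + (m/2+1) + 1 = p + 1 + (m/2+1) by ring]
  rw [← h2, h1, sum_range_succ, Finset.sum_range]
  congr 1
  · refine Fintype.sum_congr _ _ (fun e => ?_)
    have := e.2
    simp only [hG]
    rw [Nat.mod_eq_of_lt (by omega), Nat.mod_eq_of_lt (by omega : (e:ℕ) + 1 < m + 1)]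
  · simp only [hG]
    rw [Nat.mod_eq_of_lt (by omega), Nat.mod_self]

lemma cyc_sum0 (m : ℕ) (x : ℕ → ℕ) (g : ℤ → ℤ) :
    ∑ p ∈ range (m+1), g (cyc m x p) = ∑ i ∈ range (m+1), g (x i) := by
  have h := cyc_sum m x (fun a _ _ => g a)
  rw [h, sum_range_succ, Finset.sum_range]

lemma cyc_sum1 (m : ℕ) (x : ℕ → ℕ) (g : ℤ → ℤ) :
    ∑ p ∈ range (m+1), g (cyc m x (p+1)) = ∑ i ∈ range (m+1), g (x i) := by
  rw [← cyc_sum0]
  have h5 : ∑ p ∈ range (m+1+1), g (cyc m x p) = ∑ p ∈ range (m+1), g (cyc m x p)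
    + g (cyc m x (m+1)) := sum_range_succ _ _
  have h6 : ∑ p ∈ range (m+1+1), g (cyc m x p) = ∑ p ∈ range (m+1), g (cyc m x (p+1))
    + g (cyc m x 0) := sum_range_succ' _ _
  rw [cyc_per] at h5
  linarith

lemma min_sum (m : ℕ) : ∑ p ∈ range (m+1), min (p:ℤ) (((m+1 : ℕ):ℤ) - 1 - p)
    = ∑ j ∈ range (m/2+1), (j:ℤ) + ∑ j ∈ range ((m+1)/2), (j:ℤ) := by
  have h0 : m + 1 = (m/2+1) + (m+1)/2 := by omega
  rw [h0, sum_range_add, ← h0]
  congr 1
  · refine sum_congr rfl (fun p hp => ?_)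
    have := mem_range.1 hp
    exact min_eq_left (by omega)
  · rw [← sum_range_reflect]
    refine sum_congr rfl (fun p hp => ?_)
    have := mem_range.1 hp
    rw [min_eq_right (by omega)]
    omega

theorem ps_surv (m : ℕ) (hm : 2 ≤ m) (α : Equiv.Perm (Fin (m/2+1)))
    (β : Equiv.Perm (Fin ((m+1)/2)))
    (hinj : Function.Injective (fun e : Fin m =>
      lab α β e + lab α β (e+1) + qr m (rot m e))) :
    (∀ i ≤ m, lab α β i = x1 m i) ∨ (m % 4 = 3 ∧ ∀ i ≤ m, lab α β i = x2 m i) := by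
  set x := lab α β with hx
  set y := cyc m x with hy
  -- total of the shifts
  have hQ := qr_sum m y
  have hQ1 := qr_sum m (fun _ => 1)
  set Q : ℤ := ∑ p ∈ range (m+1), (qr m p : ℤ) with hQdef
  have hQ1' : 2 * Q = (m:ℤ) + (if m % 2 = 1 then 1 else 0) := by
    rw [hQdef, mul_sum]
    have e : ∑ p ∈ range (m+1), 2 * (qr m p : ℤ)
        = ∑ p ∈ range (m+1), (qr m p : ℤ) * ((fun _ => 1 : ℕ → ℤ) p + (fun _ => 1 : ℕ → ℤ) (p+1)) :=
      sum_congr rfl (fun p _ => by ring)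
    rw [e, hQ1]
    simp
  have hs1 : ∑ i ∈ range (m+1), (x i : ℤ)
      = ∑ j ∈ range (m/2+1), (j:ℤ) + ∑ j ∈ range ((m+1)/2), (j:ℤ) :=
    lab_sum α β (fun i => (i:ℤ))
  have hs2 : ∑ i ∈ range (m+1), (x i : ℤ)^2
      = ∑ j ∈ range (m/2+1), (j:ℤ)^2 + ∑ j ∈ range ((m+1)/2), (j:ℤ)^2 :=
    lab_sum α β (fun i => (i:ℤ)^2)
  set S1 : ℤ := ∑ i ∈ range (m+1), (x i : ℤ) with hS1
  set S2 : ℤ := ∑ i ∈ range (m+1), (x i : ℤ)^2 with hS2
  have hy1 : ∑ p ∈ range (m+1), y p = S1 := cyc_sum0 m x (fun t => t)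
  have hy1' : ∑ p ∈ range (m+1), y (p+1) = S1 := cyc_sum1 m x (fun t => t)
  have hy2 : ∑ p ∈ range (m+1), (y p)^2 = S2 := cyc_sum0 m x (fun t => t^2)
  have hy2' : ∑ p ∈ range (m+1), (y (p+1))^2 = S2 := cyc_sum1 m x (fun t => t^2)
  -- the closing value
  have hsumk := cyc_sum m x (fun a b c => a + b + c)
  have hsumk2 := cyc_sum m x (fun a b c => (a + b + c)^2)
  have hk1 : ∑ p ∈ range (m+1), (cyc m x p + cyc m x (p+1) + (qr m p : ℤ)) = 2 * S1 + Q := by
    rw [sum_add_distrib, sum_add_distrib]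
    change ∑ p ∈ range (m+1), y p + ∑ p ∈ range (m+1), y (p+1) + Q = _
    rw [hy1, hy1']; ring
  have g1 := ps_gauss1 (m/2+1)
  have g2 := ps_gauss1 ((m+1)/2)
  have g3 := ps_gauss1 (m+1)
  have r1 := ps_gauss2 (m/2+1)
  have r2 := ps_gauss2 ((m+1)/2)
  have r3 := ps_gauss2 (m+1)
  have htot : ∑ e : Fin m, ((x e + x (e+1) + qr m (rot m e) : ℕ) : ℤ)
      + ((x m : ℤ) + x 0 + qr m (rot m m)) = ∑ i ∈ range (m+1), (i:ℤ) := by
    have e1 : ∑ e : Fin m, ((x e + x (e+1) + qr m (rot m e) : ℕ) : ℤ)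
      = ∑ e : Fin m, ((x e : ℤ) + x (e+1) + qr m (rot m e)) :=
      Fintype.sum_congr _ _ (fun e => by push_cast; ring)
    rw [e1, ← hsumk, hk1, hs1]
    rcases Nat.even_or_odd' m with ⟨h, rfl | rfl⟩
    · rw [show 2*h/2 = h by omega] at g1
      rw [show (2*h+1)/2 = h by omega] at g2
      rw [if_neg (by omega)] at hQ1'
      rw [show 2*h/2 = h by omega, show (2*h+1)/2 = h by omega]
      push_cast at g1 g2 g3 hQ1' ⊢
      linarith
    · rw [show (2*h+1)/2 = h by omega] at g1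
      rw [show (2*h+1+1)/2 = h+1 by omega] at g2
      rw [if_pos (by omega)] at hQ1'
      rw [show (2*h+1)/2 = h by omega, show (2*h+1+1)/2 = h+1 by omega]
      push_cast at g1 g2 g3 hQ1' ⊢
      linarith
  have hle : ∀ e : Fin m, x e + x (e+1) + qr m (rot m e) ≤ m := by
    intro e
    have a1 := qr_le m (rot m e)
    rcases Nat.mod_two_eq_zero_or_one (e:ℕ) with h | h
    · have a2 := lab_le α β (e:ℕ)
      have a3 := lab_odd_lt (by omega) α β ((e:ℕ)+1) (by omega)
      rw [hx]; omega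
    · have a2 := lab_le α β ((e:ℕ)+1)
      have a3 := lab_odd_lt (by omega) α β (e:ℕ) h
      rw [hx]; omega
  have hsq := ps_sq m (fun e => x e + x (e+1) + qr m (rot m e)) hinj hle _ htot
  have hsq' : ∑ p ∈ range (m+1), (cyc m x p + cyc m x (p+1) + (qr m p : ℤ))^2
      = ∑ i ∈ range (m+1), (i:ℤ)^2 := by
    rw [hsumk2, ← hsq]
    congr 1
  -- the quadratic identity
  have hE : ∑ p ∈ range (m+1), (y (p+1) - y p)^2
      = 4 * S2 - ∑ i ∈ range (m+1), (i:ℤ)^2
        + 2 * (S1 - y 0 + (if m % 2 = 1 then y (m/2 + (m/2) % 2) else 0)) + Q := by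
    have e : ∑ p ∈ range (m+1), (y (p+1) - y p)^2
      = ∑ p ∈ range (m+1), (2 * (y (p+1))^2 + 2 * (y p)^2
        - (cyc m x p + cyc m x (p+1) + (qr m p : ℤ))^2
        + 2 * ((qr m p : ℤ) * (y p + y (p+1))) + (qr m p : ℤ)) := by
      refine sum_congr rfl (fun p _ => ?_)
      have := qr_sq m p
      rw [← hy]
      linear_combination this
    rw [e, sum_add_distrib, sum_add_distrib, sum_sub_distrib, sum_add_distrib,
      ← mul_sum, ← mul_sum, ← mul_sum, hy2, hy2', hsq', hQ, hy1]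
    ring
  -- the maximum and the zero
  have hperi : y (m+1) = y 0 := cyc_per m x
  have hyrot : ∀ i ≤ m, y (rot m i) = x i := fun i hi => cyc_rot m x i hi
  have hnn : ∀ p, 0 ≤ y p := fun p => by rw [hy]; unfold cyc; positivity
  have hub : ∀ p, y p ≤ (m/2 : ℕ) := fun p => by
    rw [hy]; unfold cyc; exact_mod_cast lab_le α β _
  obtain ⟨i0, hi0, hxi0⟩ : ∃ i0 ≤ m, x i0 = m/2 := by
    obtain ⟨j, hj⟩ := α.surjective ⟨m/2, by omega⟩
    refine ⟨2 * (j:ℕ), by have := j.2; omega, ?_⟩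
    rw [hx]; unfold lab
    rw [if_pos (by omega), dif_pos (by have := j.2; omega)]
    have : (⟨2 * (j:ℕ) / 2, by have := j.2; omega⟩ : Fin (m/2+1)) = j := by
      ext; simp
    rw [this, hj]
  obtain ⟨i1, hi1, hne, hxi1⟩ : ∃ i1 ≤ m, i1 ≠ m/2+1 ∧ x i1 = 0 := by
    rcases Nat.mod_two_eq_zero_or_one (m/2) with hh | hh
    · obtain ⟨j, hj⟩ := α.surjective ⟨0, by omega⟩
      refine ⟨2 * (j:ℕ), by have := j.2; omega, by omega, ?_⟩
      rw [hx]; unfold lab
      rw [if_pos (by omega), dif_pos (by have := j.2; omega)]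
      have : (⟨2 * (j:ℕ) / 2, by have := j.2; omega⟩ : Fin (m/2+1)) = j := by
        ext; simp
      rw [this, hj]
    · obtain ⟨j, hj⟩ := β.surjective ⟨0, by omega⟩
      refine ⟨2 * (j:ℕ) + 1, by have := j.2; omega, by omega, ?_⟩
      rw [hx]; unfold lab
      rw [if_neg (by omega), dif_pos (by have := j.2; omega)]
      have : (⟨(2 * (j:ℕ) + 1) / 2, by have := j.2; omega⟩ : Fin ((m+1)/2)) = j := by
        ext; simp; omega
      rw [this, hj]
  have hyM : y (rot m i0) = (m/2 : ℕ) := by rw [hyrot i0 hi0, hxi0]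
  have hyz : y (rot m i1) = 0 := by rw [hyrot i1 hi1, hxi1]; rfl
  have hMlt := rot_lt m i0 hi0
  have hzlt := rot_lt m i1 hi1
  have hz0 : 0 < rot m i1 := by unfold rot; split_ifs <;> omega
  have htv := ps_tv (m+1) y (rot m i0) hMlt.le hperi
  -- evaluate the right side
  have hE2 : ∑ p ∈ range (m+1), (y (p+1) - y p)^2
      = if m % 2 = 1 then 2 * y (m/2 + (m/2)%2) - 2 * y 0 else 2 * ((m/2 : ℕ):ℤ) - 2 * y 0 := by
    rw [hE, hs1, hs2]
    rcases Nat.even_or_odd' m with ⟨h, rfl | rfl⟩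
    · rw [show 2*h/2 = h by omega] at g1 r1
      rw [show (2*h+1)/2 = h by omega] at g2 r2
      rw [if_neg (by omega)] at hQ1'
      rw [show 2*h/2 = h by omega, show (2*h+1)/2 = h by omega, if_neg (by omega),
        if_neg (by omega)]
      push_cast at g1 g2 g3 r1 r2 r3 hQ1' ⊢
      linarith
    · rw [show (2*h+1)/2 = h by omega] at g1 r1
      rw [show (2*h+1+1)/2 = h+1 by omega] at g2 r2
      rw [if_pos (by omega)] at hQ1'
      rw [show (2*h+1)/2 = h by omega, show (2*h+1+1)/2 = h+1 by omega, if_pos (by omega),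
        if_pos (by omega)]
      push_cast at g1 g2 g3 r1 r2 r3 hQ1' ⊢
      linarith
  have hsqle : ∑ p ∈ range (m+1), (y (p+1) - y p)^2 ≤ 2 * y (rot m i0) - 2 * y 0 := by
    rw [hE2, hyM]
    have := hub (m/2 + (m/2)%2)
    split_ifs <;> linarith
  have hyP : m % 2 = 1 → y (m/2 + (m/2)%2) = (m/2 : ℕ) := by
    intro hodd
    rw [hE2, if_pos hodd, hyM] at htv
    have := hub (m/2 + (m/2)%2)
    linarith
  have hsumy : ∑ p ∈ range (m+1), y p
      = ∑ p ∈ range (m+1), min (p:ℤ) (((m+1 : ℕ):ℤ) - 1 - p) := by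
    rw [hy1, hs1, min_sum]
  rcases ps_core (m+1) y (rot m i0) (rot m i1) hMlt.le hz0 hzlt hyz hperi
    (fun p _ => hnn p) hsqle hsumy with hc | hc
  · left
    intro i hi
    have h1 := hyrot i hi
    rw [hc _ (rot_lt m i hi)] at h1
    have h2 : (x i : ℤ) = (x1 m i : ℤ) := by
      rw [← h1]
      unfold rot x1
      split_ifs with h3
      · rw [min_eq_right (by omega)]; omega
      · rw [min_eq_left (by omega)]; omega
    exact_mod_cast h2
  · right
    have hpos : ∀ p, 1 ≤ p → p < m+1 → y p = min ((p:ℤ)-1) ((m:ℤ)+1-p) := by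
      intro p hp hpm
      have := hc (p-1) (by omega)
      rw [show p - 1 + 1 = p by omega] at this
      rw [this]
      congr 1
      · omega
      · omega
    have hzero : y 0 = 0 := by
      rw [← hperi, hc m (by omega), min_eq_right (by omega)]
      push_cast; ring
    have hm4 : m % 4 = 3 := by
      by_contra hcon
      rcases Nat.mod_two_eq_zero_or_one m with hev | hod
      · have h1 := hyrot 1 (by omega)
        have h2 : rot m 1 = m/2 + 1 := by unfold rot; rw [if_pos (by omega)]; omega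
        rw [h2, hpos _ (by omega) (by omega), min_eq_left (by omega)] at h1
        have h3 := lab_odd_lt (by omega) α β 1 (by omega)
        rw [← hx] at h3
        omega
      · have h1 := hyP hod
        rw [hpos _ (by omega) (by omega)] at h1
        have h2 := (le_min_iff.1 h1.ge).1
        omega
    refine ⟨hm4, fun i hi => ?_⟩
    have h1 := hyrot i hi
    have h2 : (x i : ℤ) = (x2 m i : ℤ) := by
      rw [← h1]
      by_cases h0 : i = m/2+1
      · have : rot m i = 0 := by unfold rot; rw [if_neg (by omega)]; omega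
        rw [this, hzero]
        unfold x2
        rw [if_neg (by omega), if_neg (by omega)]; omega
      · rw [hpos _ (by unfold rot; split_ifs <;> omega) (rot_lt m i hi)]
        unfold rot x2
        split_ifs with h3 h4
        · rw [min_eq_left (by omega)]; omega
        · rw [min_eq_right (by omega)]; omega
        · omega
        · rw [min_eq_left (by omega)]; omega
    exact_mod_cast h2

end Pool.Agent.AMP
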