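import Mathlib
import Pool.Agent.AMP.Crit
import Pool.Agent.AMP.PathRigid

namespace Pool.Agent.AMP

open Finset

lemma ps_nopow (m : ℕ) (hm : 2 ≤ m) (z : ℤ) : (2:ℚ)^z ≠ 2^m - 1 := by
  intro h
  have h4 : (4:ℚ) ≤ 2^m := by
    calc (4:ℚ) = 2^2 := by norm_num
      _ ≤ 2^m := pow_le_pow_right₀ (by norm_num) hm
  rcases lt_or_ge z 0 with hz | hz
  · have h1 : (2:ℚ)^z ≤ 1 := zpow_le_one_of_nonpos₀ (by norm_num) hz.le
    linarith
  · obtain ⟨n, rfl⟩ := Int.eq_ofNat_of_zero_le hz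
    rw [zpow_natCast] at h
    have h2 : (2:ℕ)^n + 1 = 2^m := by
      have : ((2^n + 1 : ℕ) : ℚ) = ((2^m : ℕ) : ℚ) := by push_cast; linarith
      exact_mod_cast this
    obtain ⟨k, rfl⟩ : ∃ k, m = k + 2 := ⟨m - 2, by omega⟩
    rcases n with _ | n
    · have : 4 ≤ 2^(k+2) := by
        calc 4 = 2^2 := by norm_num
          _ ≤ 2^(k+2) := Nat.pow_le_pow_right (by norm_num) (by omega)
      omega
    · rw [pow_succ, pow_add] at h2
      omega

lemma ps_two (k : ℕ) : ∏ j ∈ range k, ((2:ℚ)^(k+1) - 2^j)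
    = (2^(k+1) - 1) * ∏ j ∈ range k, ((2:ℚ)^k - 2^j) := by
  rcases k with _ | k
  · norm_num
  · rw [prod_range_succ', prod_range_succ]
    have h1 : ∏ j ∈ range k, ((2:ℚ)^(k+1+1) - 2^(j+1)) = 2^k * ∏ j ∈ range k, ((2:ℚ)^(k+1) - 2^j) := by
      have : (2:ℚ)^k = ∏ j ∈ range k, (2:ℚ) := by simp
      rw [this, ← prod_mul_distrib]
      refine prod_congr rfl (fun j _ => ?_)
      ring
    rw [h1]
    ring

/-- Vandermonde as an iterated product. -/
lemma ps_vdm (n : ℕ) (v : ℕ → ℚ) :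
    (Matrix.vandermonde (fun i : Fin n => v i)).det
      = ∏ i ∈ range n, ∏ j ∈ range i, (v i - v j) := by
  rw [Matrix.det_vandermonde]
  have h : ∀ i : Fin n, ∏ j ∈ Ioi i, (v (j:ℕ) - v (i:ℕ))
      = ∏ j : Fin n, (if (i:ℕ) < (j:ℕ) then (v (j:ℕ) - v (i:ℕ)) else 1) := by
    intro i
    rw [← prod_filter]
    refine prod_congr ?_ (fun _ _ => rfl)
    ext j
    simp only [mem_Ioi, mem_filter, mem_univ, true_and]
    exact Fin.lt_def
  simp only [h]
  rw [prod_comm, Finset.prod_range]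
  refine Fintype.prod_congr _ _ (fun i => ?_)
  rw [← Finset.prod_range (fun j => if j < (i:ℕ) then (v (i:ℕ) - v j) else 1), ← prod_filter]
  refine prod_congr ?_ (fun _ _ => rfl)
  ext j
  simp only [mem_filter, mem_range]
  have := i.2
  constructor
  · exact fun h => h.2
  · exact fun h => ⟨by omega, h⟩

/-- Reordering changes the determinant only by a sign. -/
lemma ps_abs {m : ℕ} (g κ : Fin m → ℕ) (hκ : Function.Injective κ)
    (hr : ∀ e, ∃ i, κ e = g i) :
    |(Matrix.vandermonde (fun e => (2:ℚ)^(κ e))).det| = |(Matrix.vandermonde (fun e => (2:ℚ)^(g e))).det| := by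
  choose s hs using hr
  have hinj : Function.Injective s := by
    intro a b hab
    apply hκ
    rw [hs a, hs b, hab]
  let σ : Equiv.Perm (Fin m) := Equiv.ofBijective s (Finite.injective_iff_bijective.1 hinj)
  have h1 : Matrix.vandermonde (fun e => (2:ℚ)^(κ e))
      = (Matrix.vandermonde (fun e => (2:ℚ)^(g e))).submatrix σ id := by
    ext i j
    simp [Matrix.vandermonde_apply, σ, hs i]
  rw [h1, Matrix.det_permute, abs_mul]
  rcases Int.units_eq_one_or (Equiv.Perm.sign σ) with h | h <;> rw [h] <;> simp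

lemma ps_perm (n : ℕ) (f : ℕ → ℕ) (hlt : ∀ j < n, f j < n)
    (hinj : ∀ i < n, ∀ j < n, f i = f j → i = j) :
    ∃ σ : Equiv.Perm (Fin n), ∀ j : Fin n, (σ j : ℕ) = f j := by
  let s : Fin n → Fin n := fun j => ⟨f j, hlt j j.2⟩
  have hs : Function.Injective s := by
    intro a b hab
    have := congrArg Fin.val hab
    exact Fin.ext (hinj a a.2 b b.2 this)
  exact ⟨Equiv.ofBijective s (Finite.injective_iff_bijective.1 hs), fun j => rfl⟩

lemma lab_even {m : ℕ} (α : Equiv.Perm (Fin (m/2+1))) (β : Equiv.Perm (Fin ((m+1)/2)))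
    (j : Fin (m/2+1)) : lab α β (2 * (j:ℕ)) = α j := by
  unfold lab
  rw [if_pos (by omega), dif_pos (by have := j.2; omega)]
  congr 2
  ext; simp

lemma lab_odd {m : ℕ} (α : Equiv.Perm (Fin (m/2+1))) (β : Equiv.Perm (Fin ((m+1)/2)))
    (j : Fin ((m+1)/2)) : lab α β (2 * (j:ℕ) + 1) = β j := by
  unfold lab
  rw [if_neg (by omega), dif_pos (by have := j.2; omega)]
  congr 2
  ext; simp; omega

lemma lab_edge {m : ℕ} (α : Equiv.Perm (Fin (m/2+1))) (β : Equiv.Perm (Fin ((m+1)/2)))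
    (e : Fin m) : (α ⟨((e:ℕ)+1)/2, by have := e.2; omega⟩ : ℕ)
      + (β ⟨(e:ℕ)/2, by have := e.2; omega⟩ : ℕ) = lab α β e + lab α β (e+1) := by
  have he := e.2
  rcases Nat.mod_two_eq_zero_or_one (e:ℕ) with h | h
  · have h1 := lab_even α β ⟨((e:ℕ)+1)/2, by omega⟩
    have h2 := lab_odd α β ⟨(e:ℕ)/2, by omega⟩
    simp only at h1 h2
    rw [← h1, ← h2, show 2 * (((e:ℕ)+1)/2) = e by omega, show 2 * ((e:ℕ)/2) + 1 = e + 1 by omega]
  · have h1 := lab_even α β ⟨((e:ℕ)+1)/2, by omega⟩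
    have h2 := lab_odd α β ⟨(e:ℕ)/2, by omega⟩
    simp only at h1 h2
    rw [← h1, ← h2, show 2 * (((e:ℕ)+1)/2) = e + 1 by omega, show 2 * ((e:ℕ)/2) + 1 = e by omega]
    ring

lemma lab_ext {m : ℕ} (α α' : Equiv.Perm (Fin (m/2+1))) (β β' : Equiv.Perm (Fin ((m+1)/2)))
    (h : ∀ i ≤ m, lab α β i = lab α' β' i) : α = α' ∧ β = β' := by
  constructor
  · ext j
    rw [← lab_even α β j, ← lab_even α' β' j, h _ (by have := j.2; omega)]
  · ext j
    rw [← lab_odd α β j, ← lab_odd α' β' j, h _ (by have := j.2; omega)]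

lemma lab_mk (m : ℕ) (f : ℕ → ℕ) (h1 : ∀ i ≤ m, i % 2 = 0 → f i < m/2+1)
    (h2 : ∀ i ≤ m, i % 2 = 1 → f i < (m+1)/2)
    (h3 : ∀ i ≤ m, ∀ j ≤ m, i % 2 = j % 2 → f i = f j → i = j) :
    ∃ (α : Equiv.Perm (Fin (m/2+1))) (β : Equiv.Perm (Fin ((m+1)/2))), ∀ i ≤ m,
      lab α β i = f i := by
  obtain ⟨α, hα⟩ := ps_perm (m/2+1) (fun j => f (2*j)) (fun j hj => h1 _ (by omega) (by omega))
    (fun i hi j hj hij => by have := h3 _ (by omega) _ (by omega) (by omega) hij; omega)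
  obtain ⟨β, hβ⟩ := ps_perm ((m+1)/2) (fun j => f (2*j+1))
    (fun j hj => h2 _ (by omega) (by omega))
    (fun i hi j hj hij => by have := h3 _ (by omega) _ (by omega) (by omega) hij; omega)
  refine ⟨α, β, fun i hi => ?_⟩
  rcases Nat.mod_two_eq_zero_or_one i with h | h
  · have e1 := lab_even α β ⟨i/2, by omega⟩
    rw [hα] at e1
    simp only at e1
    rwa [show 2 * (i/2) = i by omega] at e1
  · have e1 := lab_odd α β ⟨i/2, by omega⟩
    rw [hβ] at e1
    simp only at e1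
    rwa [show 2 * (i/2) + 1 = i by omega] at e1

lemma qrot (m e : ℕ) (he : e < m) :
    qr m (rot m e) = if e ≤ m/2 then (e + m/2) % 2 else (e + m/2 + 1) % 2 := by
  unfold qr rot
  split_ifs <;> omega

lemma k1_form (m e : ℕ) (he : e < m) : x1 m e + x1 m (e+1) + qr m (rot m e)
    = if e < m/2 then 2 * (m/2 - e) - 1 + (e + m/2) % 2 else if e = m/2 then 0
      else 2 * (e - m/2) - 1 + (e + m/2 + 1) % 2 := by
  rw [qrot m e he]
  unfold x1
  split_ifs <;> omega

lemma k2_form (m e : ℕ) (he : e < m) (h4 : m % 4 = 3) :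
    x2 m e + x2 m (e+1) + qr m (rot m e)
    = if e = 0 then m else if e < m/2 then 2 * (m/2 - e) + 1 + (e + m/2) % 2
      else if e = m/2 then 1 else if e = m/2 + 1 then 0
      else 2 * (e - m/2) - 3 + (e + m/2 + 1) % 2 := by
  rw [qrot m e he]
  unfold x2
  split_ifs <;> first | contradiction | omega

lemma k1_inj (m a b : ℕ) (ha : a < m) (hb : b < m)
    (h : (if a < m/2 then 2 * (m/2 - a) - 1 + (a + m/2) % 2 else if a = m/2 then 0
      else 2 * (a - m/2) - 1 + (a + m/2 + 1) % 2)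
      = (if b < m/2 then 2 * (m/2 - b) - 1 + (b + m/2) % 2 else if b = m/2 then 0
      else 2 * (b - m/2) - 1 + (b + m/2 + 1) % 2)) : a = b := by
  generalize m/2 = k at *
  rcases Nat.even_or_odd' (a + k) with ⟨r, hr | hr⟩ <;>
  rcases Nat.even_or_odd' (b + k) with ⟨s, hs | hs⟩ <;>
  · have e1 : (a + k) % 2 = (a + k) - 2 * r := by omega
    have e2 : (b + k) % 2 = (b + k) - 2 * s := by omega
    have e3 : (a + k + 1) % 2 = 1 - ((a + k) - 2 * r) := by omega
    have e4 : (b + k + 1) % 2 = 1 - ((b + k) - 2 * s) := by omega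
    rw [e1, e2, e3, e4] at h
    clear e1 e2 e3 e4
    split_ifs at h <;> omega

lemma k2_inj (m a b : ℕ) (h4 : m % 4 = 3) (ha : a < m) (hb : b < m)
    (h : (if a = 0 then m else if a < m/2 then 2 * (m/2 - a) + 1 + (a + m/2) % 2
      else if a = m/2 then 1 else if a = m/2 + 1 then 0
      else 2 * (a - m/2) - 3 + (a + m/2 + 1) % 2)
      = (if b = 0 then m else if b < m/2 then 2 * (m/2 - b) + 1 + (b + m/2) % 2
      else if b = m/2 then 1 else if b = m/2 + 1 then 0
      else 2 * (b - m/2) - 3 + (b + m/2 + 1) % 2)) : a = b := by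
  obtain ⟨k, rfl⟩ : ∃ k, m = 4 * k + 3 := ⟨m / 4, by omega⟩
  rw [show (4*k+3)/2 = 2*k+1 by omega] at h
  rcases Nat.even_or_odd' (a + (2*k+1)) with ⟨r, hr | hr⟩ <;>
  rcases Nat.even_or_odd' (b + (2*k+1)) with ⟨s, hs | hs⟩ <;>
  · have e1 : (a + (2*k+1)) % 2 = (a + (2*k+1)) - 2 * r := by omega
    have e2 : (b + (2*k+1)) % 2 = (b + (2*k+1)) - 2 * s := by omega
    have e3 : (a + (2*k+1) + 1) % 2 = 1 - ((a + (2*k+1)) - 2 * r) := by omega
    have e4 : (b + (2*k+1) + 1) % 2 = 1 - ((b + (2*k+1)) - 2 * s) := by omega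
    rw [e1, e2, e3, e4] at h
    clear e1 e2 e3 e4
    split_ifs at h <;> omega

/-- The product that occurs for the values `0..k-1`. -/
lemma ps_det1 (m : ℕ) (κ : Fin m → ℕ) (hκ : Function.Injective κ) (hlt : ∀ e, κ e < m) :
    |(Matrix.vandermonde (fun e => (2:ℚ)^(κ e))).det|
      = |∏ i ∈ range m, ∏ j ∈ range i, ((2:ℚ)^i - 2^j)| := by
  rw [ps_abs (fun i : Fin m => (i:ℕ)) κ hκ (fun e => ⟨⟨κ e, hlt e⟩, rfl⟩)]
  rw [ps_vdm m (fun i => (2:ℚ)^i)]

lemma ps_det2 (m : ℕ) (hm : 1 ≤ m) (κ : Fin m → ℕ) (hκ : Function.Injective κ)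
    (hle : ∀ e, κ e ≤ m) (hne : ∀ e, κ e ≠ m - 1) :
    |(Matrix.vandermonde (fun e => (2:ℚ)^(κ e))).det|
      = (2^m - 1) * |∏ i ∈ range m, ∏ j ∈ range i, ((2:ℚ)^i - 2^j)| := by
  obtain ⟨k, rfl⟩ : ∃ k, m = k + 1 := ⟨m - 1, by omega⟩
  let g : ℕ → ℕ := fun i => if i = k then k + 1 else i
  have hr : ∀ e, ∃ i : Fin (k+1), κ e = g i := by
    intro e
    have h1 := hle e
    have h2 := hne e
    by_cases h : κ e = k + 1
    · exact ⟨⟨k, by omega⟩, by simp only [g]; rw [if_pos trivial]; exact h⟩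
    · refine ⟨⟨κ e, by omega⟩, ?_⟩
      simp only [g]
      rw [if_neg (by omega)]
  rw [ps_abs (fun i : Fin (k+1) => g i) κ hκ hr, ps_vdm (k+1) (fun i => (2:ℚ)^(g i)),
    prod_range_succ, prod_range_succ]
  have e1 : ∏ i ∈ range k, ∏ j ∈ range i, ((2:ℚ)^(g i) - 2^(g j))
      = ∏ i ∈ range k, ∏ j ∈ range i, ((2:ℚ)^i - 2^j) := by
    refine prod_congr rfl (fun i hi => prod_congr rfl (fun j hj => ?_))
    have h1 := mem_range.1 hi
    have h2 := mem_range.1 hj
    simp only [g]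
    rw [if_neg (by omega), if_neg (by omega)]
  have e2 : ∏ j ∈ range k, ((2:ℚ)^(g k) - 2^(g j)) = ∏ j ∈ range k, ((2:ℚ)^(k+1) - 2^j) := by
    refine prod_congr rfl (fun j hj => ?_)
    have h2 := mem_range.1 hj
    simp only [g]
    rw [if_pos trivial, if_neg (by omega)]
  rw [e1, e2, ps_two]
  have hpos : (0:ℚ) ≤ 2^(k+1) - 1 := by
    have : (1:ℚ) ≤ 2^(k+1) := one_le_pow₀ (by norm_num)
    linarith
  rw [abs_mul, abs_mul, abs_mul, abs_of_nonneg hpos]
  ring

/-- The term of the criterion. -/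
noncomputable def tm (m : ℕ) (c : ℕ → ℤ) (α : Equiv.Perm (Fin (m/2+1)))
    (β : Equiv.Perm (Fin ((m+1)/2))) : ℚ :=
  ((Equiv.Perm.sign α : ℤ) : ℚ) * ((Equiv.Perm.sign β : ℤ) : ℚ) *
      (2:ℚ) ^ (∑ i : Fin (m/2+1), c (2 * i) * (α i : ℕ)
        + ∑ j : Fin ((m+1)/2), c (2 * j + 1) * (β j : ℕ) : ℤ) *
      (Matrix.vandermonde
        (fun e : Fin m => (2:ℚ) ^ (lab α β e + lab α β (e+1) + qr m (rot m e)))).det

lemma tm_inj (m : ℕ) (c : ℕ → ℤ) (α : Equiv.Perm (Fin (m/2+1)))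
    (β : Equiv.Perm (Fin ((m+1)/2))) (h : tm m c α β ≠ 0) :
    Function.Injective (fun e : Fin m => lab α β e + lab α β (e+1) + qr m (rot m e)) := by
  unfold tm at h
  have h1 := right_ne_zero_of_mul h
  have h2 := Matrix.det_vandermonde_ne_zero_iff.1 h1
  intro a b hab
  apply h2
  simp only at hab ⊢
  rw [hab]

lemma tm_abs (m : ℕ) (c : ℕ → ℤ) (α : Equiv.Perm (Fin (m/2+1)))
    (β : Equiv.Perm (Fin ((m+1)/2))) : ∃ z : ℤ, |tm m c α β| = 2^z *
      |(Matrix.vandermonde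
        (fun e : Fin m => (2:ℚ) ^ (lab α β e + lab α β (e+1) + qr m (rot m e)))).det| := by
  refine ⟨(∑ i : Fin (m/2+1), c (2 * i) * (α i : ℕ)
        + ∑ j : Fin ((m+1)/2), c (2 * j + 1) * (β j : ℕ) : ℤ), ?_⟩
  unfold tm
  rw [abs_mul, abs_mul, abs_mul]
  have h1 : |((Equiv.Perm.sign α : ℤ) : ℚ)| = 1 := by
    rcases Int.units_eq_one_or (Equiv.Perm.sign α) with h | h <;> rw [h] <;> simp
  have h2 : |((Equiv.Perm.sign β : ℤ) : ℚ)| = 1 := by
    rcases Int.units_eq_one_or (Equiv.Perm.sign β) with h | h <;> rw [h] <;> simp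
  rw [h1, h2, abs_of_pos (zpow_pos (by norm_num) _)]
  ring

lemma inj2 : Function.Injective (fun n : ℕ => (2:ℚ)^n) :=
  pow_right_injective₀ (by norm_num) (by norm_num)

lemma tm_sum_ne (m : ℕ) (hm : 2 ≤ m) (c : ℕ → ℤ) :
    ∑ α : Equiv.Perm (Fin (m/2+1)), ∑ β : Equiv.Perm (Fin ((m+1)/2)), tm m c α β ≠ 0 := by
  obtain ⟨α1, β1, h1⟩ := lab_mk m (x1 m)
    (fun i hi h => by unfold x1; split_ifs <;> omega)
    (fun i hi h => by unfold x1; split_ifs <;> omega)
    (fun i hi j hj hij h => by unfold x1 at h; split_ifs at h <;> omega)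
  have hk1 : ∀ e : Fin m, lab α1 β1 e + lab α1 β1 (e+1) + qr m (rot m e)
      = if (e:ℕ) < m/2 then 2 * (m/2 - e) - 1 + (e + m/2) % 2 else if (e:ℕ) = m/2 then 0
      else 2 * (e - m/2) - 1 + (e + m/2 + 1) % 2 := by
    intro e
    have := e.2
    rw [h1 e (by omega), h1 (e+1) (by omega), k1_form m e this]
  have hi1 : Function.Injective
      (fun e : Fin m => lab α1 β1 e + lab α1 β1 (e+1) + qr m (rot m e)) := by
    intro a b hab
    have ha := a.2
    have hb := b.2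
    simp only [hk1] at hab
    apply Fin.ext
    exact k1_inj m a b ha hb hab
  have hne1 : tm m c α1 β1 ≠ 0 := by
    obtain ⟨z, hz⟩ := tm_abs m c α1 β1
    have : (Matrix.vandermonde
        (fun e : Fin m => (2:ℚ) ^ (lab α1 β1 e + lab α1 β1 (e+1) + qr m (rot m e)))).det ≠ 0 :=
      Matrix.det_vandermonde_ne_zero_iff.2 (inj2.comp hi1)
    intro h
    rw [h, abs_zero] at hz
    have h2 : (0:ℚ) < 2^z * |(Matrix.vandermonde
        (fun e : Fin m => (2:ℚ) ^ (lab α1 β1 e + lab α1 β1 (e+1) + qr m (rot m e)))).det| :=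
      mul_pos (zpow_pos (by norm_num) _) (abs_pos.2 this)
    linarith
  have hsum : ∑ α : Equiv.Perm (Fin (m/2+1)), ∑ β : Equiv.Perm (Fin ((m+1)/2)), tm m c α β
      = ∑ p : Equiv.Perm (Fin (m/2+1)) × Equiv.Perm (Fin ((m+1)/2)), tm m c p.1 p.2 :=
    (Fintype.sum_prod_type' (fun a b => tm m c a b)).symm
  rw [hsum]
  by_cases h4 : m % 4 = 3
  · obtain ⟨α2, β2, h2⟩ := lab_mk m (x2 m)
      (fun i hi h => by unfold x2; split_ifs <;> omega)
      (fun i hi h => by unfold x2; split_ifs <;> omega)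
      (fun i hi j hj hij h => by unfold x2 at h; split_ifs at h <;> omega)
    have hk2 : ∀ e : Fin m, lab α2 β2 e + lab α2 β2 (e+1) + qr m (rot m e)
        = if (e:ℕ) = 0 then m else if (e:ℕ) < m/2 then 2 * (m/2 - e) + 1 + (e + m/2) % 2
      else if (e:ℕ) = m/2 then 1 else if (e:ℕ) = m/2 + 1 then 0
      else 2 * (e - m/2) - 3 + (e + m/2 + 1) % 2 := by
      intro e
      have := e.2
      rw [h2 e (by omega), h2 (e+1) (by omega), k2_form m e this h4]
    have hi2 : Function.Injective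
        (fun e : Fin m => lab α2 β2 e + lab α2 β2 (e+1) + qr m (rot m e)) := by
      intro a b hab
      have ha := a.2
      have hb := b.2
      simp only [hk2] at hab
      apply Fin.ext
      exact k2_inj m a b h4 ha hb hab
    have hne : (α1, β1) ≠ (α2, β2) := by
      intro h
      have ha := congrArg Prod.fst h
      have hb := congrArg Prod.snd h
      simp only at ha hb
      have e1 := h1 1 (by omega)
      have e2 := h2 1 (by omega)
      rw [ha, hb, e2] at e1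
      unfold x1 x2 at e1
      split_ifs at e1 <;> omega
    have hs : ∑ p : Equiv.Perm (Fin (m/2+1)) × Equiv.Perm (Fin ((m+1)/2)), tm m c p.1 p.2
        = tm m c α1 β1 + tm m c α2 β2 := by
      refine Finset.sum_eq_add (α1, β1) (α2, β2) hne ?_ ?_ ?_
      · intro p _ hp
        by_contra hcon
        rcases ps_surv m hm p.1 p.2 (tm_inj m c p.1 p.2 hcon) with h | ⟨-, h⟩
        · apply hp.1
          have := lab_ext p.1 α1 p.2 β1 (fun i hi => by rw [h i hi, h1 i hi])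
          exact Prod.ext this.1 this.2
        · apply hp.2
          have := lab_ext p.1 α2 p.2 β2 (fun i hi => by rw [h i hi, h2 i hi])
          exact Prod.ext this.1 this.2
      · intro h; exact absurd (mem_univ _) h
      · intro h; exact absurd (mem_univ _) h
    rw [hs]
    intro h0
    have habs : |tm m c α1 β1| = |tm m c α2 β2| := by
      rw [eq_neg_of_add_eq_zero_left h0, abs_neg]
    obtain ⟨z1, hz1⟩ := tm_abs m c α1 β1
    obtain ⟨z2, hz2⟩ := tm_abs m c α2 β2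
    rw [hz1, hz2] at habs
    rw [ps_det1 m _ hi1 (fun e => by
      have := e.2
      simp only [hk1]
      split_ifs <;> omega)] at habs
    rw [ps_det2 m (by omega) _ hi2 (fun e => by
      have := e.2
      simp only [hk2]
      split_ifs <;> omega) (fun e => by
      have := e.2
      simp only [hk2]
      split_ifs <;> omega)] at habs
    set D : ℚ := |∏ i ∈ range m, ∏ j ∈ range i, ((2:ℚ)^i - 2^j)| with hD
    have hDpos : D ≠ 0 := by
      rw [hD, abs_ne_zero]
      refine prod_ne_zero_iff.2 (fun i _ => prod_ne_zero_iff.2 (fun j hj => ?_))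
      have hj' := mem_range.1 hj
      rw [sub_ne_zero]
      intro hh
      have := inj2 hh
      omega
    have h3 : (2:ℚ)^z1 = 2^z2 * (2^m - 1) := by
      have : (2:ℚ)^z1 * D = (2^z2 * (2^m - 1)) * D := by rw [habs]; ring
      exact mul_right_cancel₀ hDpos this
    have h5 : (2:ℚ)^(z1 - z2) = 2^m - 1 := by
      rw [zpow_sub₀ (by norm_num), h3]
      have : (2:ℚ)^z2 ≠ 0 := zpow_ne_zero _ (by norm_num)
      field_simp
    exact ps_nopow m hm _ h5
  · have hs : ∑ p : Equiv.Perm (Fin (m/2+1)) × Equiv.Perm (Fin ((m+1)/2)), tm m c p.1 p.2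
        = tm m c α1 β1 := by
      refine Finset.sum_eq_single (α1, β1) ?_ ?_
      · intro p _ hp
        by_contra hcon
        rcases ps_surv m hm p.1 p.2 (tm_inj m c p.1 p.2 hcon) with h | ⟨h, -⟩
        · apply hp
          have := lab_ext p.1 α1 p.2 β1 (fun i hi => by rw [h i hi, h1 i hi])
          exact Prod.ext this.1 this.2
        · exact h4 h
      · intro h; exact absurd (mem_univ _) h
    rw [hs]
    exact hne1

/-- On a path with `m` edges, for arbitrary integer offsets of the vertices, the labels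
`0..m-1` can be put on the edges such that the vertex sums are distinct on the even places and
distinct on the odd places. -/
theorem path_sep (m : ℕ) (c : ℕ → ℤ) : ∃ x : Equiv.Perm (Fin m), ∀ i j : ℕ, i ≤ m → j ≤ m →
    i ≠ j → i % 2 = j % 2 →
    c i + (∑ e : Fin m, if (e : ℕ) = i ∨ (e : ℕ) + 1 = i then ((x e : ℕ) : ℤ) else 0)
      ≠ c j + (∑ e : Fin m, if (e : ℕ) = j ∨ (e : ℕ) + 1 = j then ((x e : ℕ) : ℤ) else 0) := by
  rcases lt_or_ge m 2 with hm | hm
  · exact ⟨1, fun i j hi hj hij h => by omega⟩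
  have hH := tm_sum_ne m hm c
  obtain ⟨x, hx1, hx2⟩ := crit (m := m) (a := m/2+1) (b := (m+1)/2)
    (fun e => ⟨((e:ℕ)+1)/2, by have := e.2; omega⟩) (fun e => ⟨(e:ℕ)/2, by have := e.2; omega⟩)
    (fun e => qr m (rot m e)) (fun i => c (2 * i)) (fun j => c (2 * j + 1)) (by
      simp only [lab_edge]
      exact hH)
  refine ⟨x, fun i j hi hj hij hpar => ?_⟩
  have hs1 : ∀ i ≤ m, i % 2 = 0 → ∀ hlt : i / 2 < m/2+1,
      ∑ e ∈ Finset.univ.filter (fun e : Fin m =>
        (⟨((e:ℕ)+1)/2, by have := e.2; omega⟩ : Fin (m/2+1)) = ⟨i/2, hlt⟩), ((x e : ℕ) : ℤ)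
      = ∑ e : Fin m, if (e : ℕ) = i ∨ (e : ℕ) + 1 = i then ((x e : ℕ) : ℤ) else 0 := by
    intro i hi h hlt
    rw [sum_filter]
    refine Fintype.sum_congr _ _ (fun e => ?_)
    simp only [Fin.mk.injEq]
    congr 1
    apply propext
    omega
  have hs2 : ∀ i ≤ m, i % 2 = 1 → ∀ hlt : i / 2 < (m+1)/2,
      ∑ e ∈ Finset.univ.filter (fun e : Fin m =>
        (⟨(e:ℕ)/2, by have := e.2; omega⟩ : Fin ((m+1)/2)) = ⟨i/2, hlt⟩), ((x e : ℕ) : ℤ)
      = ∑ e : Fin m, if (e : ℕ) = i ∨ (e : ℕ) + 1 = i then ((x e : ℕ) : ℤ) else 0 := by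
    intro i hi h hlt
    rw [sum_filter]
    refine Fintype.sum_congr _ _ (fun e => ?_)
    simp only [Fin.mk.injEq]
    congr 1
    apply propext
    omega
  rcases Nat.mod_two_eq_zero_or_one i with h | h
  · have h' : j % 2 = 0 := by omega
    have := hx1 ⟨i/2, by omega⟩ ⟨j/2, by omega⟩ (by
      intro hh
      have := congrArg Fin.val hh
      simp only at this
      omega)
    simp only at this
    rw [hs1 i hi h, hs1 j hj h', show 2 * (i/2) = i by omega, show 2 * (j/2) = j by omega] at this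
    exact this
  · have h' : j % 2 = 1 := by omega
    have := hx2 ⟨i/2, by omega⟩ ⟨j/2, by omega⟩ (by
      intro hh
      have := congrArg Fin.val hh
      simp only at this
      omega)
    simp only at this
    rw [hs2 i hi h, hs2 j hj h', show 2 * (i/2) + 1 = i by omega,
      show 2 * (j/2) + 1 = j by omega] at this
    exact this

end Pool.Agent.AMP
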